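import Pool.Agent.Work.MP_e17eac_co.B5.St5

/-!
# Arbitrary sets, blueprint part B-5: assembly
-/

set_option autoImplicit false

namespace Pool.Agent.Work.MP_e17eac_co.B5

open Finset
open Pool.Agent.Work.MP_e17eac_co.DH
open Pool.Agent.Work.MP_e17eac_co.B1
open Pool.Agent.Work.MP_e17eac_co.BB

namespace X5B5

variable {ι : Type} [Fintype ι] [DecidableEq ι]

theorem big_mono {K : KSys ι} {r m : ℕ} {H D : ℝ} {C C1 : ℕ} (B : Big K r m H D C)
    (h : C1 ≤ C) : Big K r m H D C1 where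
  std := B.std
  gp := B.gp
  HD := B.HD
  D2 := B.D2
  log := B.log
  ub := B.ub
  Dr := by
    have h1 : (1 : ℝ) ≤ D := by linarith [B.D2]
    exact (pow_le_pow_right₀ h1 h).trans B.Dr
  rn := by
    have h1 : (1 : ℝ) ≤ r := by
      have := B.std.two
      exact_mod_cast (by omega : 1 ≤ r)
    exact (pow_le_pow_right₀ h1 (Nat.mul_le_mul_right _ h)).trans B.rn

theorem card_union {α : Type} [DecidableEq α] (T : Finset α) (F : α → Finset ℕ) (a N : ℝ)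
    (ha : 0 ≤ a) (h : ∀ w ∈ T, a * ((F w).card : ℝ) ≤ N) :
    a * ((T.biUnion F).card : ℝ) ≤ T.card * N := by
  calc a * ((T.biUnion F).card : ℝ) ≤ a * ((∑ w ∈ T, (F w).card : ℕ) : ℝ) := by
        apply mul_le_mul_of_nonneg_left _ ha
        exact_mod_cast card_biUnion_le
    _ = ∑ w ∈ T, a * ((F w).card : ℝ) := by
        push_cast
        rw [mul_sum]
    _ ≤ ∑ _w ∈ T, N := sum_le_sum h
    _ = T.card * N := by rw [sum_const, nsmul_eq_mul]

end X5B5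

theorem I5_B5 (hSub : StFlwSub) (hPos : StPos5) (hHU : StHU) (hThick : StThick) (hHL : StHL)
    (hPrf : StPrf) : BB.StB5 := by
  classical
  intro m e kp l
  obtain ⟨C1, h1⟩ := hHU m e kp l (3 * (m + 1) ^ 3 + 2)
  obtain ⟨C2, h2⟩ := hThick m e kp l (3 * (m + 1) ^ 3 + 2)
  obtain ⟨C3, h3⟩ := hHL m e kp l (3 * (m + 1) ^ 3 + 2)
  obtain ⟨C4, h4⟩ := hPos
  refine ⟨C1 + C2 + C3 + C4, 2, ?_⟩
  intro ι _ _ K r H D s0 e0 L κ X2 X4 S E B Fl
  have B1 := X5B5.big_mono B (by omega : C1 ≤ C1 + C2 + C3 + C4)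
  have B2 := X5B5.big_mono B (by omega : C2 ≤ C1 + C2 + C3 + C4)
  have B3 := X5B5.big_mono B (by omega : C3 ≤ C1 + C2 + C3 + C4)
  have B4 := X5B5.big_mono B (by omega : C4 ≤ C1 + C2 + C3 + C4)
  have P := h4 ι K r m H D s0 e0 L κ e kp l X2 X4 S E B4 Fl.one
  have hD2 := B.D2
  have hlev := Fl.one.lev
  have hN0 : (0 : ℝ) ≤ K.N := Nat.cast_nonneg _
  -- the bad sets
  set U := range (m + 1) ×ˢ range (m + 1) with hU
  set V := range (m + 1) ×ˢ (range (m + 1) ×ˢ range (m + 1)) with hV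
  set F1 : ℕ × ℕ → Finset ℕ := fun w =>
    if w.1 ∈ S ∧ X2 + k6 kp l + 1 ≤ w.2 ∧ w.2 < w.1 ∧ w.1 ≤ 2 * w.2 ∧ w.1 + kt e kp l ≤ X4 ∧
      2 * (w.1 - w.2) + kz e kp l ≤ w.1
    then huV K r m H s0 e0 L e kp l E w.1 w.2 else ∅ with hF1
  set F2 : ℕ × ℕ → Finset ℕ := fun w =>
    if w.1 ∈ S ∧ X2 + k6 kp l + 1 ≤ w.2 ∧ w.2 < w.1 ∧ w.1 ≤ 2 * w.2 ∧ w.1 + kt e kp l ≤ X4
    then thin K r L κ e kp l E w.1 w.2 else ∅ with hF2
  set F3 : ℕ × (ℕ × ℕ) → Finset ℕ := fun w =>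
    if w.1 ∈ S ∧ w.2.1 ∈ S ∧ X2 + k6 kp l + 1 ≤ w.2.2 ∧ w.2.2 < w.1 ∧ w.1 ≤ 2 * w.2.2 ∧
      w.1 + kt e kp l ≤ X4 ∧ 4 * w.2.1 + (kp + k6 kp l) ≤ 4 * w.1 - 1 ∧
      4 * (w.1 - w.2.1) + (k8 e kp l + 5) < 2 * (w.1 - w.2.2) ∧
      zl e kp l w.1 w.2.1 w.2.2 ≤ w.2.1
    then hlV K r m H s0 e0 L e kp l E w.1 w.2.1 w.2.2 \ thin K r L κ e kp l E w.1 w.2.2
    else ∅ with hF3
  set k := 3 * (m + 1) ^ 3 + 2 with hk
  have b1 : D ^ k * ((U.biUnion F1).card : ℝ) ≤ U.card * K.N := by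
    apply X5B5.card_union _ _ _ _ (by positivity)
    intro w _
    rw [hF1]
    simp only
    split_ifs with hc
    · exact h1 ι K r H D s0 e0 L κ X2 X4 S E B1 Fl P w.1 hc.1 w.2 hc.2.1 hc.2.2.1 hc.2.2.2.1
        hc.2.2.2.2.1 hc.2.2.2.2.2
    · simp
  have b2 : D ^ k * ((U.biUnion F2).card : ℝ) ≤ U.card * K.N := by
    apply X5B5.card_union _ _ _ _ (by positivity)
    intro w _
    rw [hF2]
    simp only
    split_ifs with hc
    · exact h2 ι K r H D s0 e0 L κ X2 X4 S E B2 Fl w.1 hc.1 w.2 hc.2.1 hc.2.2.1 hc.2.2.2.1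
        hc.2.2.2.2
    · simp
  have b3 : D ^ k * ((V.biUnion F3).card : ℝ) ≤ V.card * K.N := by
    apply X5B5.card_union _ _ _ _ (by positivity)
    intro w _
    rw [hF3]
    simp only
    split_ifs with hc
    · exact h3 ι K r H D s0 e0 L κ X2 X4 S E B3 Fl P w.1 hc.1 w.2.1 hc.2.1 w.2.2 hc.2.2.1
        hc.2.2.2.1 hc.2.2.2.2.1 hc.2.2.2.2.2.1 hc.2.2.2.2.2.2.1 hc.2.2.2.2.2.2.2.1
        hc.2.2.2.2.2.2.2.2
    · simp
  have cU : (U.card : ℝ) ≤ ((m + 1) ^ 3 : ℕ) := by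
    have : U.card ≤ (m + 1) ^ 3 := by
      rw [hU, card_product, card_range]
      calc (m + 1) * (m + 1) = (m + 1) ^ 2 := by ring
        _ ≤ (m + 1) ^ 3 := Nat.pow_le_pow_right (by omega) (by norm_num)
    exact_mod_cast this
  have cV : (V.card : ℝ) ≤ ((m + 1) ^ 3 : ℕ) := by
    have : V.card ≤ (m + 1) ^ 3 := by
      rw [hV, card_product, card_product, card_range]
      exact le_of_eq (by ring)
    exact_mod_cast this
  set Bad := U.biUnion F1 ∪ U.biUnion F2 ∪ V.biUnion F3 with hBad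
  have cBad : (Bad.card : ℝ) ≤ (U.biUnion F1).card + (U.biUnion F2).card +
      (V.biUnion F3).card := by
    have h5 : Bad.card ≤ (U.biUnion F1).card + (U.biUnion F2).card + (V.biUnion F3).card :=
      (card_union_le _ _).trans (Nat.add_le_add_right (card_union_le _ _) _)
    exact_mod_cast h5
  have hDk : D ^ k = D ^ (3 * (m + 1) ^ 3) * D ^ 2 := by rw [hk, pow_add]
  have hbig : (3 * ((m + 1) ^ 3 : ℕ) : ℝ) ≤ D ^ (3 * (m + 1) ^ 3) := by
    calc (3 * ((m + 1) ^ 3 : ℕ) : ℝ) = ((3 * (m + 1) ^ 3 : ℕ) : ℝ) := by push_cast; ring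
      _ ≤ ((2 ^ (3 * (m + 1) ^ 3) : ℕ) : ℝ) := by exact_mod_cast Nat.lt_two_pow_self.le
      _ = (2 : ℝ) ^ (3 * (m + 1) ^ 3) := by push_cast; rfl
      _ ≤ D ^ (3 * (m + 1) ^ 3) := pow_le_pow_left₀ (by norm_num) hD2 _
  have hQ : (0 : ℝ) < D ^ (3 * (m + 1) ^ 3) := by positivity
  have hBadN : D ^ 2 * (Bad.card : ℝ) ≤ K.N := by
    have h6 : D ^ k * (Bad.card : ℝ) ≤ 3 * ((m + 1) ^ 3 : ℕ) * K.N := by
      have h7 : D ^ k * (Bad.card : ℝ) ≤ D ^ k * ((U.biUnion F1).card + (U.biUnion F2).card +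
        (V.biUnion F3).card) := mul_le_mul_of_nonneg_left cBad (by positivity)
      have h8 := mul_le_mul_of_nonneg_right cU hN0
      have h9 := mul_le_mul_of_nonneg_right cV hN0
      linarith
    have h10 : D ^ (3 * (m + 1) ^ 3) * (D ^ 2 * (Bad.card : ℝ)) ≤
        D ^ (3 * (m + 1) ^ 3) * K.N := by
      rw [← mul_assoc, ← hDk]
      exact h6.trans (mul_le_mul_of_nonneg_right hbig hN0)
    exact le_of_mul_le_mul_left h10 hQ
  have hE'N : (K.N : ℝ) ≤ D ^ 2 * ((E \ Bad).card : ℝ) := by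
    have h5 : E.card ≤ (E \ Bad).card + Bad.card := by
      have := card_le_card (subset_union_left (s₁ := E) (s₂ := Bad))
      have h6 := card_sdiff_add_card E Bad
      omega
    have h6 : (E.card : ℝ) ≤ (E \ Bad).card + Bad.card := by exact_mod_cast h5
    have h7 := Fl.one.card
    have h8 : D ^ 2 * (E.card : ℝ) ≤ D ^ 2 * ((E \ Bad).card + Bad.card) :=
      mul_le_mul_of_nonneg_left h6 (by positivity)
    have h9 : D * (K.N : ℝ) ≤ D * (D * E.card) := mul_le_mul_of_nonneg_left h7 (by linarith)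
    have h10 : 2 * (K.N : ℝ) ≤ D * K.N := mul_le_mul_of_nonneg_right hD2 hN0
    nlinarith
  have hD1 : (1 : ℝ) ≤ D := by linarith
  have hDD : D ≤ D ^ 2 := by nlinarith
  have Fl' := hSub ι K r m H D (D ^ 2) s0 e0 L κ e kp l X2 X4 S E (E \ Bad) hD1 hDD Fl
    sdiff_subset hE'N
  have P' : Pos5 K r m H s0 e0 (E \ Bad) :=
    ⟨P.bdd, fun j hj1 hj2 i hi => P.pos j hj1 hj2 i (mem_sdiff.1 hi).1⟩
  have hSm : ∀ x ∈ S, x < m + 1 := by
    intro x hx
    have := mem_Icc.1 (Fl.one.sub hx)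
    omega
  refine ⟨E \ Bad, sdiff_subset, Fl', ?_⟩
  intro i hi
  apply hPrf ι K r m H (D ^ 2) s0 e0 L κ e kp l X2 X4 S (E \ Bad) B.std.two Fl' P' i hi
  · intro x hx y hy1 hy2 hy3 hy4 hy5 hmem
    obtain ⟨hiE, hiB⟩ := mem_sdiff.1 hi
    apply hiB
    rw [hBad, mem_union, mem_union]
    left; left
    rw [mem_biUnion]
    refine ⟨(x, y), ?_, ?_⟩
    · rw [hU, mem_product, mem_range, mem_range]
      have := hSm x hx
      exact ⟨this, by simp only; omega⟩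
    · rw [hF1]
      simp only
      rw [if_pos ⟨hx, hy1, hy2, hy3, hy4, hy5⟩]
      unfold huV at hmem ⊢
      rw [mem_filter] at hmem ⊢
      exact ⟨hiE, hmem.2⟩
  · intro x hx x' hx' y hy1 hy2 hy3 hy4 hy5 hy6 hy7 hmem
    obtain ⟨hiE, hiB⟩ := mem_sdiff.1 hi
    apply hiB
    rw [hBad, mem_union, mem_union]
    by_cases hth : i ∈ thin K r L κ e kp l E x y
    · left; right
      rw [mem_biUnion]
      refine ⟨(x, y), ?_, ?_⟩
      · rw [hU, mem_product, mem_range, mem_range]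
        have := hSm x hx
        exact ⟨this, by simp only; omega⟩
      · rw [hF2]
        simp only
        rw [if_pos ⟨hx, hy1, hy2, hy3, hy4⟩]
        exact hth
    · right
      rw [mem_biUnion]
      refine ⟨(x, (x', y)), ?_, ?_⟩
      · rw [hV, mem_product, mem_product, mem_range, mem_range, mem_range]
        have := hSm x hx
        exact ⟨this, hSm x' hx', by simp only; omega⟩
      · rw [hF3]
        simp only
        rw [if_pos ⟨hx, hx', hy1, hy2, hy3, hy4, hy5, hy6, hy7⟩, mem_sdiff]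
        refine ⟨?_, hth⟩
        unfold hlV at hmem ⊢
        rw [mem_filter] at hmem ⊢
        exact ⟨hiE, hmem.2⟩

end Pool.Agent.Work.MP_e17eac_co.B5
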