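import Pool.Agent.Work.MP_e17eac_co.B5.St5

/-!
# MP_e17eac_co, block B5: item CLS
-/

set_option autoImplicit false

namespace Pool.Agent.Work.MP_e17eac_co.B5

open Finset
open Pool.Agent.Work.MP_e17eac_co.DH
open Pool.Agent.Work.MP_e17eac_co.B1
open Pool.Agent.Work.MP_e17eac_co.BB

theorem I5_CLS : StCls := by
  intro ι _ _ K r m H D s0 e0 L κ e kp l X2 X4 S E hr hF hP y hy1 hy2 i hi
  have hlev := hF.one.lev
  set k := k6 kp l with hk
  set j := 4 * y - 1 - k with hj
  have hjk : j + k = 4 * y - 1 := by omega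
  have hg := hF.grow j (by omega) (by rw [← hk]; omega) i hi
  rw [← hk, hjk] at hg
  have hpos := hP.pos (4 * y - 1) (by omega) (by omega) i hi
  have hr' : (2 : ℝ) ≤ r := by exact_mod_cast hr
  have hlt : (r : ℝ) * rd K r m H s0 e0 (4 * y - 1) (K.a i) <
      rad K (PS K r m H) s0 e0 r j (K.a i) := by
    refine lt_of_lt_of_le ?_ hg
    have h1 : (r : ℝ) < (r : ℝ) ^ 2 := by nlinarith
    exact mul_lt_mul_of_pos_right h1 hpos
  refine card_le_of_lt_rad K (PS K r m H) s0 e0 hlt ?_ ?_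
  · intro q hq
    rw [mem_filter, mem_image] at hq
    obtain ⟨⟨i', hi', rfl⟩, _⟩ := hq
    have := (hF.one.hyg i' hi').ps false
    simpa [KSys.ln] using this
  · intro q hq
    rw [mem_filter, mem_image] at hq
    obtain ⟨⟨i', hi', rfl⟩, h2⟩ := hq
    exact hF.one.dm y (by omega) hy2 i hi i' hi' h2.symm

end Pool.Agent.Work.MP_e17eac_co.B5
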