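import Pool.Agent.Work.MP_e17eac_co.B5.St5

/-!
# MP_e17eac_co, block B5, item COMMON (helper81)
-/

set_option autoImplicit false

namespace Pool.Agent.Work.MP_e17eac_co.B5

open Finset
open Pool.Agent.Work.MP_e17eac_co.DH
open Pool.Agent.Work.MP_e17eac_co.B1
open Pool.Agent.Work.MP_e17eac_co.BB

namespace X5COMMON

theorem three_of_card {s : Finset ℕ} (h : 2 < s.card) :
    ∃ c1 ∈ s, ∃ c2 ∈ s, ∃ c3 ∈ s, c1 < c2 ∧ c2 < c3 := by
  have hne : s.Nonempty := card_pos.1 (by omega)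
  have h2 : 0 < (s \ {s.min' hne, s.max' hne}).card := by
    have h3 := le_card_sdiff ({s.min' hne, s.max' hne} : Finset ℕ) s
    have h4 : ({s.min' hne, s.max' hne} : Finset ℕ).card ≤ 2 := card_le_two
    omega
  obtain ⟨c2, hc2⟩ := card_pos.1 h2
  rw [mem_sdiff, mem_insert, mem_singleton, not_or] at hc2
  refine ⟨s.min' hne, s.min'_mem hne, c2, hc2.1, s.max' hne, s.max'_mem hne, ?_, ?_⟩
  · exact lt_of_le_of_ne (s.min'_le c2 hc2.1) (fun h => hc2.2.1 h.symm)
  · exact lt_of_le_of_ne (s.le_max' c2 hc2.1) hc2.2.2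

variable {ι : Type} [Fintype ι] [DecidableEq ι]

theorem nest' {K : KSys ι} {r m : ℕ} {D s0 e0 : ℝ} {L : Lab} {E : Finset ℕ}
    (h : LabOK K r m D s0 e0 L E) {z : ℕ} (hz : 1 ≤ z) {i : ℕ} (hi : i ∈ E) (k : ℕ)
    (hk : z + k ≤ m) : L.h0 z i ≤ L.h0 (z + k) i ∧ L.h1 (z + k) i ≤ L.h1 z i := by
  induction k with
  | zero => exact ⟨le_rfl, le_rfl⟩
  | succ k ih =>
    have h1 := ih (by omega)
    have h2 := h.nest (z + k) (by omega) (by omega) i hi
    rw [add_assoc] at h2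
    exact ⟨h1.1.trans h2.1, h2.2.trans h1.2⟩

end X5COMMON

open X5COMMON in
theorem I5_COMMON (hLab : StLabCnt) : StCommon := by
  intro ι _ _ K r m H D s0 e0 L κ e kp l X2 X4 S E hr hD hH one z x hz hzx hx2 hx4 j E1 hE1
    hv p q hpq
  have lev := one.lev
  have hr1 : 1 ≤ r := by
    have : (1 : ℝ) ≤ r := by linarith
    exact_mod_cast this
  have hxm : x ≤ m := by omega
  have hx1 : 1 ≤ x := by omega
  obtain ⟨_, _, _, hcnt⟩ := hLab ι K r m H D s0 e0 L E (by linarith) hH hr1 one.lab one.hyg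
    x hx1 hxm E1 hE1
  set Cm := (E1.filter (fun i => K.a i = p)).image (L.lab x) ∩
    (E1.filter (fun i => K.a i = q)).image (L.lab x) with hCm
  set A := (E1.filter (fun i => K.a i = p)).filter (fun i => L.lab x i ∈ Cm) with hA
  have hbase : 0 < e0 - s0 := by linarith [one.lab.base]
  -- the contact with `q`
  have hcon : ∀ i ∈ A, i ∈ E1 ∧ K.a i = p ∧
      |K.ht p (L.h0 x i) - K.ht q (L.h0 x i)| ≤ D * rd K r m H s0 e0 (4 * x - 1) p ∧
      |K.ht p (L.h1 x i) - K.ht q (L.h1 x i)| ≤ D * rd K r m H s0 e0 (4 * x - 1) p := by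
    intro i hi
    rw [hA, mem_filter, mem_filter] at hi
    obtain ⟨⟨hi1, hip⟩, hic⟩ := hi
    rw [hCm, mem_inter, mem_image, mem_image] at hic
    obtain ⟨_, ⟨i', hi', hli⟩⟩ := hic
    rw [mem_filter] at hi'
    have h1 := one.lab.con x hx1 hxm i (hE1 hi1) i' (hE1 hi'.1) hli.symm
    have h2 := one.up x hx2 hx4 i (hE1 hi1)
    rw [hip, hi'.2] at h1
    rw [hip] at h2
    have h3 : D * L.del x i ≤ D * rd K r m H s0 e0 (4 * x - 1) p :=
      mul_le_mul_of_nonneg_left h2 (by linarith)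
    exact ⟨hi1, hip, h1.1.trans h3, h1.2.trans h3⟩
  have hcell : (A.image (cell K r z)).card ≤ 2 := by
    by_contra hlt
    obtain ⟨c1, hc1, c2, hc2, c3, hc3, h12, h23⟩ := three_of_card (not_le.1 hlt)
    rw [mem_image] at hc1 hc2 hc3
    obtain ⟨i1, hi1, rfl⟩ := hc1
    obtain ⟨i2, hi2, rfl⟩ := hc2
    obtain ⟨i3, hi3, rfl⟩ := hc3
    obtain ⟨hE11, ha1, _, hu⟩ := hcon i1 hi1
    obtain ⟨hE12, ha2, _, _⟩ := hcon i2 hi2
    obtain ⟨hE13, ha3, hw, _⟩ := hcon i3 hi3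
    obtain ⟨k, rfl⟩ := Nat.exists_eq_add_of_le hzx
    have n1 := nest' one.lab hz (hE1 hE11) k hxm
    have n3 := nest' one.lab hz (hE1 hE13) k hxm
    have d12 := one.lab.disj z hz (by omega) i1 (hE1 hE11) i2 (hE1 hE12) h12
    have d23 := one.lab.disj z hz (by omega) i2 (hE1 hE12) i3 (hE1 hE13) h23
    have hu1 := one.lab.hull (z + k) hx1 hxm i1 (hE1 hE11)
    have hu3 := one.lab.hull (z + k) hx1 hxm i3 (hE1 hE13)
    have hu2 := one.lab.hull z hz (by omega) i2 (hE1 hE12)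
    have huv : L.h1 (z + k) i1 < L.h0 (z + k) i3 := by linarith [n1.2, n3.1, hu2.2.1]
    have key := dist0_le_of_two K one.lab.base p q huv (by linarith [hu1.1, hu1.2.1])
      (by linarith [hu3.2.1, hu3.2.2.1]) hu hw
    have hv2 := hv i2 hE12
    rw [ha2] at hv2
    have hR : 0 ≤ rd K r m H s0 e0 j p := rad_nonneg K (PS K r m H) s0 e0 r j p
    have hR' : 0 ≤ rd K r m H s0 e0 (4 * (z + k) - 1) p :=
      rad_nonneg K (PS K r m H) s0 e0 r (4 * (z + k) - 1) p
    rw [dist0_comm] at hpq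
    have hlen : L.h1 z i2 - L.h0 z i2 ≤ L.h0 (z + k) i3 - L.h1 (z + k) i1 := by
      linarith [n1.2, n3.1]
    have s1 : (L.h1 z i2 - L.h0 z i2) * rd K r m H s0 e0 j p ≤
        (L.h0 (z + k) i3 - L.h1 (z + k) i1) * (10 * dist0 K s0 e0 p q) := by
      refine (mul_le_mul_of_nonneg_right hlen hR).trans ?_
      exact mul_le_mul_of_nonneg_left hpq (by linarith)
    have s2 : 30 * D * rd K r m H s0 e0 (4 * (z + k) - 1) p * (e0 - s0) ≤
        r * rd K r m H s0 e0 (4 * (z + k) - 1) p * (e0 - s0) := by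
      refine mul_le_mul_of_nonneg_right ?_ hbase.le
      exact mul_le_mul_of_nonneg_right hr hR'
    nlinarith [key, s1, s2, hv2]
  -- counting
  have hsub : Cm ⊆ (A.image (cell K r z)).biUnion (fun c =>
      (E1.filter (fun i => K.a i = p ∧ cell K r z i = c)).image (L.lab x)) := by
    intro lam hlam
    have h1 : lam ∈ (E1.filter (fun i => K.a i = p)).image (L.lab x) := by
      rw [hCm, mem_inter] at hlam
      exact hlam.1
    obtain ⟨i, hi, hli⟩ := mem_image.1 h1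
    have hiA : i ∈ A := by
      rw [hA, mem_filter]
      exact ⟨hi, by rw [hli]; exact hlam⟩
    rw [mem_filter] at hi
    rw [mem_biUnion]
    refine ⟨cell K r z i, mem_image_of_mem _ hiA, ?_⟩
    rw [mem_image]
    exact ⟨i, mem_filter.2 ⟨hi.1, hi.2, rfl⟩, hli⟩
  have h1 : (Cm.card : ℝ) ≤ ∑ c ∈ A.image (cell K r z),
      (((E1.filter (fun i => K.a i = p ∧ cell K r z i = c)).image (L.lab x)).card : ℝ) := by
    have := (card_le_card hsub).trans card_biUnion_le
    exact_mod_cast this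
  refine h1.trans ?_
  refine (sum_le_sum fun c _ => hcnt z hzx p c).trans ?_
  rw [sum_const, nsmul_eq_mul]
  refine mul_le_mul_of_nonneg_right ?_ (by positivity)
  exact_mod_cast hcell

end Pool.Agent.Work.MP_e17eac_co.B5
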