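import Pool.Agent.Work.MP_e17eac_co.B5.St5

/-!
# Arbitrary sets, blueprint part B-5 (note 2880), item CORE: choice of a line in every unit and
the crossing lemma (P2)
-/

set_option autoImplicit false

namespace Pool.Agent.Work.MP_e17eac_co.B5

open Finset
open Pool.Agent.Work.MP_e17eac_co.DH
open Pool.Agent.Work.MP_e17eac_co.B1
open Pool.Agent.Work.MP_e17eac_co.BB

namespace X5CORE

variable {ι : Type} [Fintype ι] [DecidableEq ι]

/-- The lines of an edge are visited in its cell. -/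
lemma ln_mem_vis (K : KSys ι) (r z i : ℕ) (hi : i < K.N) (s : Bool) :
    K.ln s i ∈ vis K r z (cell K r z i) := by
  have h1 : i ∈ ce K r z (cell K r z i) := mem_filter.2 ⟨mem_range.2 hi, rfl⟩
  unfold vis KSys.lines
  cases s
  · exact mem_union_left _ (mem_image_of_mem _ h1)
  · exact mem_union_right _ (mem_image_of_mem _ h1)

/-- The size of a unit. -/
noncomputable def V (K : KSys ι) (r m z : ℕ) (H : ℝ) (f : ι → ℕ) (U : ℕ × ℕ) : ℕ :=
  ((PS K r m H).filter (fun q => f q = U.1 ∧ q ∈ vis K r z U.2)).card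

/-- The sum of the sizes of the units. -/
lemma sum_V (K : KSys ι) (r m z : ℕ) (H : ℝ) (f : ι → ℕ) (hz : z ≤ m) (hH : 0 ≤ H)
    (T : Finset (ℕ × ℕ)) (hT : ∀ U ∈ T, U.2 < r ^ (4 * z)) :
    ((∑ U ∈ T, V K r m z H f U : ℕ) : ℝ) ≤ Fintype.card ι * (H * (r : ℝ) ^ z) := by
  classical
  have h1 : ∑ U ∈ T, V K r m z H f U =
      ∑ q ∈ PS K r m H, (T.filter (fun U => f q = U.1 ∧ q ∈ vis K r z U.2)).card := by
    unfold V
    simp only [card_filter]
    rw [sum_comm]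
  have h2 : ∀ q ∈ PS K r m H,
      ((T.filter (fun U => f q = U.1 ∧ q ∈ vis K r z U.2)).card : ℝ) ≤ H * (r : ℝ) ^ z := by
    intro q hq
    have h3 : (T.filter (fun U => f q = U.1 ∧ q ∈ vis K r z U.2)).card ≤ W K r z q := by
      unfold W
      refine card_le_card_of_injOn Prod.snd ?_ ?_
      · intro U hU
        have hU' := mem_filter.1 (mem_coe.1 hU)
        exact mem_coe.2 (mem_filter.2 ⟨mem_range.2 (hT U hU'.1), hU'.2.2⟩)
      · intro U hU U' hU' h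
        have g1 := mem_filter.1 (mem_coe.1 hU)
        have g2 := mem_filter.1 (mem_coe.1 hU')
        exact Prod.ext (g1.2.1.symm.trans g2.2.1) h
    have h4 : (W K r z q : ℝ) ≤ H * (r : ℝ) ^ z := by
      have h5 := hq
      unfold PS at h5
      exact (mem_filter.1 h5).2 z hz
    calc ((T.filter (fun U => f q = U.1 ∧ q ∈ vis K r z U.2)).card : ℝ) ≤ (W K r z q : ℝ) := by
          exact_mod_cast h3
      _ ≤ H * (r : ℝ) ^ z := h4
  have h0 : (0 : ℝ) ≤ H * (r : ℝ) ^ z := by positivity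
  rw [h1, Nat.cast_sum]
  calc ∑ q ∈ PS K r m H, ((T.filter (fun U => f q = U.1 ∧ q ∈ vis K r z U.2)).card : ℝ)
      ≤ ∑ q ∈ PS K r m H, H * (r : ℝ) ^ z := sum_le_sum h2
    _ = ((PS K r m H).card : ℝ) * (H * (r : ℝ) ^ z) := by rw [sum_const, nsmul_eq_mul]
    _ ≤ Fintype.card ι * (H * (r : ℝ) ^ z) := by
        refine mul_le_mul_of_nonneg_right ?_ h0
        exact_mod_cast card_le_univ _

/-- The dense level, with cubes. -/
lemma cube {n N H : ℝ} (hn : 0 ≤ n) (h : n ^ ((4 : ℝ) / 3) ≤ H * N) : n ^ 4 ≤ (H * N) ^ 3 := by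
  have h1 : (n ^ ((4 : ℝ) / 3)) ^ 3 = n ^ 4 := by
    rw [← Real.rpow_natCast (n ^ ((4 : ℝ) / 3)) 3, ← Real.rpow_mul hn,
      ← Real.rpow_natCast n 4]
    norm_num
  rw [← h1]
  exact pow_le_pow_left₀ (Real.rpow_nonneg hn _) h 3

/-- The units are small. -/
lemma small {n H D A : ℝ} {r m k z C : ℕ} (hn : 0 < n) (hH : 1 ≤ H) (hHD : H ≤ D) (hD : 2 ≤ D)
    (hz : z ≤ m) (hC : 9 * k + 30 ≤ C) (hr : 2 ≤ r) (hDr : D ^ C ≤ r)
    (hrn : (r : ℝ) ^ (C * (m + 1)) ≤ n)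
    (h : n ^ 4 ≤ H ^ 6 * D ^ (9 * k) * A ^ 3) (hA : 0 ≤ A) :
    32 * (n * (H * (r : ℝ) ^ z)) ≤ A := by
  by_contra hcon
  have hcon' : A < 32 * (n * (H * (r : ℝ) ^ z)) := lt_of_not_ge hcon
  have hr1 : (1 : ℝ) ≤ (r : ℝ) := by exact_mod_cast (by omega : 1 ≤ r)
  have hD1 : 1 ≤ D := by linarith
  have hD0 : 0 < D := by linarith
  have hH0 : 0 < H := by linarith
  have h1 : A ^ 3 < (32 * (n * (H * (r : ℝ) ^ z))) ^ 3 :=
    pow_lt_pow_left₀ hcon' hA (by norm_num)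
  have h2 : n ^ 4 < H ^ 6 * D ^ (9 * k) * (32 * (n * (H * (r : ℝ) ^ z))) ^ 3 :=
    lt_of_le_of_lt h (mul_lt_mul_of_pos_left h1 (by positivity))
  have h3 : n < 32 ^ 3 * H ^ 9 * D ^ (9 * k) * (r : ℝ) ^ (3 * z) := by
    have h4 : H ^ 6 * D ^ (9 * k) * (32 * (n * (H * (r : ℝ) ^ z))) ^ 3 =
        n ^ 3 * (32 ^ 3 * H ^ 9 * D ^ (9 * k) * (r : ℝ) ^ (3 * z)) := by
      rw [pow_mul' (r : ℝ) 3 z]
      ring
    have h5 : n ^ 4 = n ^ 3 * n := by ring
    rw [h4, h5] at h2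
    exact lt_of_mul_lt_mul_left h2 (by positivity)
  have h6 : (32 : ℝ) ^ 3 ≤ D ^ 15 := by
    have : (2 : ℝ) ^ 15 ≤ D ^ 15 := pow_le_pow_left₀ (by norm_num) hD 15
    norm_num at this ⊢
    exact this
  have h7 : H ^ 9 ≤ D ^ 9 := pow_le_pow_left₀ hH0.le hHD 9
  have h8 : 32 ^ 3 * H ^ 9 * D ^ (9 * k) ≤ (r : ℝ) := by
    calc 32 ^ 3 * H ^ 9 * D ^ (9 * k) ≤ D ^ 15 * D ^ 9 * D ^ (9 * k) := by gcongr
      _ = D ^ (15 + 9 + 9 * k) := by rw [pow_add, pow_add]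
      _ ≤ D ^ C := pow_le_pow_right₀ hD1 (by omega)
      _ ≤ r := hDr
  have h9 : 32 ^ 3 * H ^ 9 * D ^ (9 * k) * (r : ℝ) ^ (3 * z) ≤ (r : ℝ) ^ (C * (m + 1)) := by
    calc 32 ^ 3 * H ^ 9 * D ^ (9 * k) * (r : ℝ) ^ (3 * z) ≤ (r : ℝ) * (r : ℝ) ^ (3 * z) :=
          mul_le_mul_of_nonneg_right h8 (by positivity)
      _ = (r : ℝ) ^ (3 * z + 1) := by rw [pow_succ]; ring
      _ ≤ (r : ℝ) ^ (C * (m + 1)) := by
          refine pow_le_pow_right₀ hr1 ?_
          calc 3 * z + 1 ≤ 3 * (m + 1) := by omega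
            _ ≤ C * (m + 1) := Nat.mul_le_mul_right _ (by omega)
  linarith

/-- The final computation. -/
lemma fin {n H D A M C2 SV rr : ℝ} {x z k c C : ℕ} (hn : 0 < n) (hH : 1 ≤ H) (hHD : H ≤ D)
    (hD : 2 ≤ D) (hrr : 0 < rr) (hC2 : 1 ≤ C2) (hc : C2 ≤ 2 ^ c) (hC : 9 * k + 12 + c ≤ C)
    (h : n ^ 4 ≤ H ^ 6 * D ^ (9 * k) * A ^ 3) (hSV0 : 0 ≤ SV)
    (hSV : SV ≤ n * (H * rr ^ z))
    (hX : M * A ^ 3 * rr ^ (4 * x + z) ≤ C2 * H ^ 4 * n ^ 3 * SV ^ 2) :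
    M * rr ^ (4 * x) ≤ D ^ C * (n * rr ^ z) := by
  have hD1 : 1 ≤ D := by linarith
  have hD0 : 0 < D := by linarith
  have hH0 : 0 < H := by linarith
  rcases le_or_gt M 0 with hM | hM
  · have h1 : M * rr ^ (4 * x) ≤ 0 := mul_nonpos_of_nonpos_of_nonneg hM (by positivity)
    exact h1.trans (by positivity)
  have h1 : M * A ^ 3 * rr ^ (4 * x + z) ≤ C2 * H ^ 4 * n ^ 3 * (n * (H * rr ^ z)) ^ 2 :=
    hX.trans (mul_le_mul_of_nonneg_left (pow_le_pow_left₀ hSV0 hSV 2) (by positivity))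
  have h2 : M * n ^ 4 * rr ^ (4 * x + z) ≤
      H ^ 6 * D ^ (9 * k) * (C2 * H ^ 4 * n ^ 3 * (n * (H * rr ^ z)) ^ 2) := by
    calc M * n ^ 4 * rr ^ (4 * x + z) ≤
          M * (H ^ 6 * D ^ (9 * k) * A ^ 3) * rr ^ (4 * x + z) := by gcongr
      _ = H ^ 6 * D ^ (9 * k) * (M * A ^ 3 * rr ^ (4 * x + z)) := by ring
      _ ≤ _ := mul_le_mul_of_nonneg_left h1 (by positivity)
  have h3 : (n ^ 4 * rr ^ z) * (M * rr ^ (4 * x)) ≤
      (n ^ 4 * rr ^ z) * (C2 * H ^ 12 * D ^ (9 * k) * (n * rr ^ z)) := by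
    calc (n ^ 4 * rr ^ z) * (M * rr ^ (4 * x)) = M * n ^ 4 * rr ^ (4 * x + z) := by
          rw [pow_add]; ring
      _ ≤ _ := h2
      _ = _ := by ring
  have h4 : M * rr ^ (4 * x) ≤ C2 * H ^ 12 * D ^ (9 * k) * (n * rr ^ z) :=
    le_of_mul_le_mul_left h3 (by positivity)
  refine h4.trans (mul_le_mul_of_nonneg_right ?_ (by positivity))
  calc C2 * H ^ 12 * D ^ (9 * k) ≤ D ^ c * D ^ 12 * D ^ (9 * k) := by
        gcongr
        exact hc.trans (pow_le_pow_left₀ (by norm_num) hD c)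
    _ = D ^ (c + 12 + 9 * k) := by rw [pow_add, pow_add]
    _ ≤ D ^ C := pow_le_pow_right₀ hD1 (by omega)

end X5CORE

open X5CORE in
theorem I5_CORE (hCell : StCell) (hAV : StAV) (hP2 : StP2) : StCore := by
  classical
  obtain ⟨C2, hC2, hP⟩ := hP2
  obtain ⟨c, hc⟩ := pow_unbounded_of_one_lt C2 (by norm_num : (1 : ℝ) < 2)
  intro m k
  refine ⟨9 * k + 30 + c, ?_⟩
  intro ι _ _ K r H D hB z x hzx hxm f F hhyg hfab hN hlight hcells R M hR
  have hr2 : 2 ≤ r := hB.std.two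
  have hr1 : 1 ≤ r := by omega
  have hrR : (0 : ℝ) < (r : ℝ) := by exact_mod_cast (by omega : 0 < r)
  have hH1 : 1 ≤ H := hB.std.one
  have hH0 : 0 < H := by linarith
  have hD2 : 2 ≤ D := hB.D2
  have hD0 : 0 < D := by linarith
  have hN0 : 0 < K.N := lt_of_lt_of_le (Nat.pow_pos (by omega)) hB.std.pow
  have hNR : (0 : ℝ) < (K.N : ℝ) := by exact_mod_cast hN0
  have hn0 : (0 : ℝ) < (Fintype.card ι : ℝ) := lt_of_lt_of_le (by positivity) hB.rn
  obtain ⟨cc1, cc2, cc3, cc4, cc5, cc6⟩ := hCell ι K r z hr1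
  -- units
  have hDk0 : 0 < D ^ k := by positivity
  obtain ⟨pf, hpf1, hpf2⟩ := hAV ι (ℕ × ℕ) K r m x z hr1 hzx hxm H (D ^ k) hH0 hDk0 hN0
    (fun i => (f (K.a i), cell K r z i)) F hhyg
    (by
      intro i _ j _ h1 h2
      simp only [h1, h2])
    (by
      intro i hi
      refine (hlight i hi).trans (le_of_eq ?_)
      ring)
    (by
      intro i hi
      have h1 := hcells i hi
      have h2 : F.filter (fun j => (f (K.a j), cell K r z j) = (f (K.a i), cell K r z i)) =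
          F.filter (fun j => f (K.a j) = f (K.a i) ∧ cell K r z j = cell K r z i) := by
        refine filter_congr fun j _ => ?_
        rw [Prod.mk.injEq]
      rw [h2]
      exact h1)
  obtain ⟨F4, hF4⟩ : ∃ F4 : Finset ℕ, F4 = F.filter (fun i => ∃ j ∈ F,
      (f (K.a j), cell K r z j) = (f (K.a i), cell K r z i) ∧
      K.a j = pf (f (K.a i), cell K r z i) ∧ cell K r x j = cell K r x i) := ⟨_, rfl⟩
  have hcard : (F.card : ℝ) ≤ H * (D ^ k) ^ 2 * (F4.card : ℝ) := by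
    rw [hF4]
    convert hpf2
  have hsub : F4 ⊆ F := by
    rw [hF4]
    exact filter_subset _ _
  have hmem : ∀ i ∈ F4, ∃ j ∈ F, (f (K.a j), cell K r z j) = (f (K.a i), cell K r z i) ∧
      K.a j = pf (f (K.a i), cell K r z i) ∧ cell K r x j = cell K r x i := by
    intro i hi
    rw [hF4] at hi
    exact (mem_filter.1 hi).2
  -- the size of F4
  have hA : (Fintype.card ι : ℝ) ^ 4 ≤ H ^ 6 * D ^ (9 * k) * (F4.card : ℝ) ^ 3 := by
    have h1 := cube hn0.le hB.std.dense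
    have h2 : H * (K.N : ℝ) ≤ H * (D ^ k * (H * (D ^ k) ^ 2 * (F4.card : ℝ))) := by
      gcongr
      exact hN.trans (mul_le_mul_of_nonneg_left hcard hDk0.le)
    calc (Fintype.card ι : ℝ) ^ 4 ≤ (H * (K.N : ℝ)) ^ 3 := h1
      _ ≤ (H * (D ^ k * (H * (D ^ k) ^ 2 * (F4.card : ℝ)))) ^ 3 :=
          pow_le_pow_left₀ (by positivity) h2 3
      _ = H ^ 6 * D ^ (9 * k) * (F4.card : ℝ) ^ 3 := by
          rw [pow_mul' D 9 k]
          ring
  have hA0 : (0 : ℝ) ≤ (F4.card : ℝ) := by positivity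
  -- the sum of the sizes
  have hS := sum_V K r m z H f (hzx.trans hxm) hH0.le
    (F4.image (fun i => (f (K.a i), cell K r z i)))
    (by
      intro U hU
      obtain ⟨i, hi, rfl⟩ := mem_image.1 hU
      exact cc1 i (hhyg i (hsub hi)).lt)
  have hsm := small (n := (Fintype.card ι : ℝ)) (H := H) (D := D) (A := (F4.card : ℝ)) (r := r)
    (m := m) (k := k) (z := z) (C := 9 * k + 30 + c) hn0 hH1 hB.HD hD2 (hzx.trans hxm)
    (by omega) hr2 hB.Dr hB.rn hA hA0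
  have hX := hP ι (ℕ × ℕ) K hB.std.inj hB.gp r m x z hr1 hzx hxm H hH0.le
    (fun i => (f (K.a i), cell K r z i)) (V K r m z H f) F4
    (fun i hi => mem_range.2 (hhyg i (hsub hi)).lt) (fun i hi => hhyg i (hsub hi))
    (by
      intro i _ j _ h
      exact (Prod.mk.inj h).2)
    (by
      intro U hU s
      unfold V
      refine card_le_card ?_
      intro q hq
      obtain ⟨i, hi, rfl⟩ := mem_image.1 hq
      obtain ⟨hi1, hi2⟩ := mem_filter.1 hi
      have hy := hhyg i (hsub hi1)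
      refine mem_filter.2 ⟨hy.ps s, ?_, ?_⟩
      · rw [← hi2]
        cases s
        · rfl
        · exact (hfab i (hsub hi1)).symm
      · rw [← hi2]
        exact ln_mem_vis K r z i hy.lt s)
    (by
      have h1 : ((32 * ∑ U ∈ F4.image (fun i => (f (K.a i), cell K r z i)),
          V K r m z H f U : ℕ) : ℝ) ≤ (F4.card : ℝ) := by
        rw [Nat.cast_mul]
        refine le_trans ?_ hsm
        exact mul_le_mul_of_nonneg_left hS (by norm_num)
      exact_mod_cast h1)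
    (fun U => R (pf U) U.2) M
    (by
      intro i hi
      obtain ⟨j, hj, h1, h2, h3⟩ := hmem i hi
      obtain ⟨h4, h5⟩ := Prod.mk.inj h1
      obtain ⟨g1, g2, g3⟩ := hR j hj
      rw [h2, h5] at g1 g2 g3
      rw [h3] at g2
      exact ⟨g3, g1, g2⟩)
  exact fin (C2 := C2) (c := c) (k := k) hn0 hH1 hB.HD hD2 hrR hC2 hc.le (by omega) hA
    (by positivity) hS hX

end Pool.Agent.Work.MP_e17eac_co.B5
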