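import Pool.Agent.Work.MP_e17eac_co.B5.St5

/-!
# (HL): few thick edges violate the lower bound for the hull lengths
-/

set_option autoImplicit false

namespace Pool.Agent.Work.MP_e17eac_co.B5

open Finset
open Pool.Agent.Work.MP_e17eac_co.DH
open Pool.Agent.Work.MP_e17eac_co.B1
open Pool.Agent.Work.MP_e17eac_co.BB

namespace X5HL

variable {ι : Type} [Fintype ι] [DecidableEq ι]

/-- `Big` is monotone in the exponent. -/
lemma big_mono {K : KSys ι} {r m : ℕ} {H D : ℝ} {C C' : ℕ} (h : Big K r m H D C) (hC : C' ≤ C) :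
    Big K r m H D C' := by
  have hD : (1 : ℝ) ≤ D := by linarith [h.D2]
  have hr : (1 : ℝ) ≤ (r : ℝ) := by
    have := h.std.two
    exact_mod_cast (by omega : 1 ≤ r)
  exact ⟨h.std, h.gp, h.HD, h.D2, h.log, h.ub, le_trans (pow_le_pow_right₀ hD hC) h.Dr,
    le_trans (pow_le_pow_right₀ hr (Nat.mul_le_mul_right _ hC)) h.rn⟩

/-- Counting: after two prunings the set is still dense. -/
lemma dens {D N e b1 b2 f : ℝ} {k : ℕ} (hD : 2 ≤ D) (he : N < D ^ k * e)
    (h1 : D ^ (k + 2) * b1 ≤ N) (h2 : D ^ (k + 2) * b2 ≤ N) (hf : 0 ≤ f) (hN : 0 ≤ N)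
    (hs : e ≤ f + b1 + b2) : N ≤ D ^ (k + 1) * f := by
  have hk : (0 : ℝ) < D ^ k := by positivity
  have e1 : D ^ (k + 2) = D ^ k * D ^ 2 := pow_add _ _ _
  have e2 : D ^ (k + 1) = D ^ k * D := pow_succ _ _
  rw [e1] at h1 h2
  rw [e2]
  have hD2 : (4 : ℝ) ≤ D ^ 2 := by nlinarith
  have g : ∀ b : ℝ, D ^ k * D ^ 2 * b ≤ N → 4 * (D ^ k * b) ≤ N := by
    intro b hb
    rcases le_or_gt 0 b with h0 | h0
    · have h3 : 0 ≤ D ^ k * b := by positivity
      nlinarith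
    · have h3 : D ^ k * b ≤ 0 := mul_nonpos_of_nonneg_of_nonpos hk.le h0.le
      linarith
  have g1 := g b1 h1
  have g2 := g b2 h2
  have g3 : D ^ k * e ≤ D ^ k * f + D ^ k * b1 + D ^ k * b2 := by
    have := mul_le_mul_of_nonneg_left hs hk.le
    linarith
  have g4 : 0 ≤ D ^ k * f := by positivity
  nlinarith

end X5HL

open Classical in
theorem I5_HL (hPRA : StPruneA) (hPRB : StPruneB) (hRB : StRB) (hRBV : StRBvis)
    (hCore : StCore) : StHL := by
  intro m e kp l k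
  obtain ⟨C0, hC0⟩ := hCore m (3 * k + 30)
  refine ⟨C0 + 3, ?_⟩
  intro ι _ _ K r H D s0 e0 L κ X2 X4 S E hBig hFlw hPos x hx x' hx' y hy1 hyx hx2y hxX4 hxx' hz1
    hzx'
  by_contra hcon
  push Not at hcon
  have hOne := hFlw.one
  have hB0 := X5HL.big_mono hBig (show C0 ≤ C0 + 3 by omega)
  have hB1 := X5HL.big_mono hBig (show 1 ≤ C0 + 3 by omega)
  have hD2 : (2 : ℝ) ≤ D := hBig.D2
  have hD1 : (1 : ℝ) ≤ D := by linarith
  have hr2 : 2 ≤ r := hBig.std.two
  have hr1 : (1 : ℝ) ≤ (r : ℝ) := by exact_mod_cast (by omega : 1 ≤ r)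
  have hr0 : (0 : ℝ) < (r : ℝ) := by linarith
  have hDr : D ^ (C0 + 3) ≤ (r : ℝ) := hBig.Dr
  have hDC : (1 : ℝ) ≤ D ^ C0 := one_le_pow₀ hD1
  have h2Dr : 2 * D < (r : ℝ) := by
    have h1 : D ^ (C0 + 3) = D ^ C0 * D ^ 3 := pow_add _ _ _
    have h2 : D ^ 3 ≤ D ^ C0 * D ^ 3 := le_mul_of_one_le_left (by positivity) hDC
    have h3 : 2 * D < D ^ 3 := by
      have h4 : (4 : ℝ) ≤ D ^ 2 := by nlinarith
      have h5 : D ^ 3 = D * D ^ 2 := by ring
      rw [h5]
      nlinarith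
    linarith
  have hxI := mem_Icc.1 (hOne.sub hx)
  have hx'I := mem_Icc.1 (hOne.sub hx')
  have hlev := hOne.lev
  have hx'x : x' < x := by omega
  obtain ⟨z, hz⟩ : ∃ z, z = zl e kp l x x' y := ⟨_, rfl⟩
  have hzv : z = 2 * (x - y) - (4 * (x - x') + (k8 e kp l + 5)) := hz
  have hz1' : 1 ≤ z := by omega
  rw [← hz] at hzx'
  have hzm : z ≤ m := by omega
  -- the edges
  obtain ⟨E1, hE1⟩ : ∃ E1, E1 = hlV K r m H s0 e0 L e kp l E x x' y \ thin K r L κ e kp l E x y :=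
    ⟨_, rfl⟩
  rw [← hE1] at hcon
  have hE1E : E1 ⊆ E := by
    rw [hE1]
    exact sdiff_subset.trans (filter_subset _ _)
  have hE1v : ∀ i ∈ E1, r * (L.h1 z i - L.h0 z i) * rd K r m H s0 e0 (4 * y - 1) (K.a i) ≤
      rd K r m H s0 e0 (4 * x - 1) (K.a i) * (e0 - s0) := by
    intro i hi
    rw [hE1] at hi
    have h1 := (mem_filter.1 (mem_sdiff.1 hi).1).2
    rw [← hz] at h1
    exact h1.le
  have hE1t : ∀ i ∈ E1, Fintype.card ι ≤
      (unl K L κ E x y i).card * r ^ (2 * x + 2 * y + k8 e kp l + 1) := by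
    intro i hi
    rw [hE1] at hi
    have h1 := (mem_sdiff.1 hi).2
    have h2 : i ∈ E := hE1E (by rw [hE1]; exact hi)
    by_contra h3
    exact h1 (mem_filter.2 ⟨h2, by omega⟩)
  -- first pruning
  have hhash := hOne.hash x' hx'I.1 hx'I.2
  have hB := hPRB ι K r m H D hB1 (k + 2) z x' hzx' (by omega) E E1 (κ x') hOne.hyg hE1E hhash
  obtain ⟨Bad1, hBad1⟩ : ∃ Bad1 : Finset ℕ, Bad1 = E1.filter (fun i =>
    D ^ (3 * (k + 2) + 19) * (r : ℝ) ^ (x' - z) <
    (((E1.filter (fun j => κ x' (K.a j) = κ x' (K.a i) ∧ cell K r z j = cell K r z i)).image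
      (cell K r x')).card : ℝ)) := ⟨_, rfl⟩
  have hB' : D ^ (k + 2) * (Bad1.card : ℝ) ≤ K.N := by
    rw [hBad1]
    convert hB using 5
  obtain ⟨F2, hF2⟩ : ∃ F2, F2 = E1 \ Bad1 := ⟨_, rfl⟩
  have hF2E : F2 ⊆ E1 := by rw [hF2]; exact sdiff_subset
  have hF2c : ∀ i ∈ F2, (((E1.filter (fun j => κ x' (K.a j) = κ x' (K.a i) ∧
      cell K r z j = cell K r z i)).image (cell K r x')).card : ℝ) ≤
      D ^ (3 * (k + 2) + 19) * (r : ℝ) ^ (x' - z) := by
    intro i hi
    rw [hF2] at hi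
    by_contra h1
    push Not at h1
    apply (mem_sdiff.1 hi).2
    rw [hBad1]
    exact mem_filter.2 ⟨(mem_sdiff.1 hi).1, h1⟩
  -- second pruning
  have hA := hPRA ι K r m H D hB1 (k + 2) z hzm F2 (fun i hi => hOne.hyg i (hE1E (hF2E hi)))
  obtain ⟨Bad2, hBad2⟩ : ∃ Bad2 : Finset ℕ, Bad2 = F2.filter (fun i =>
    D ^ (k + 2 + 1) * (Fintype.card ι * (r : ℝ) ^ z) *
    ((F2.filter (fun j => K.a j = K.a i ∧ cell K r z j = cell K r z i)).card : ℝ) < K.N) :=
    ⟨_, rfl⟩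
  have hA' : D ^ (k + 2) * (Bad2.card : ℝ) ≤ K.N := by
    rw [hBad2]
    convert hA using 5
  obtain ⟨F3, hF3⟩ : ∃ F3, F3 = F2 \ Bad2 := ⟨_, rfl⟩
  have hF3F2 : F3 ⊆ F2 := by rw [hF3]; exact sdiff_subset
  have hF3E : F3 ⊆ E := (hF3F2.trans hF2E).trans hE1E
  have hF3p : ∀ i ∈ F3, (K.N : ℝ) ≤ D ^ (k + 2 + 1) * (Fintype.card ι * (r : ℝ) ^ z) *
      ((F2.filter (fun j => K.a j = K.a i ∧ cell K r z j = cell K r z i)).card : ℝ) := by
    intro i hi
    rw [hF3] at hi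
    by_contra h1
    push Not at h1
    apply (mem_sdiff.1 hi).2
    rw [hBad2]
    exact mem_filter.2 ⟨(mem_sdiff.1 hi).1, h1⟩
  have hF3s : ∀ i ∈ F3, F2.filter (fun j => K.a j = K.a i ∧ cell K r z j = cell K r z i) ⊆
      F3.filter (fun j => K.a j = K.a i ∧ cell K r z j = cell K r z i) := by
    intro i hi j hj
    obtain ⟨hj1, hj2, hj3⟩ := mem_filter.1 hj
    refine mem_filter.2 ⟨?_, hj2, hj3⟩
    rw [hF3]
    refine mem_sdiff.2 ⟨hj1, fun hj4 => ?_⟩
    rw [hBad2] at hj4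
    have h1 := (mem_filter.1 hj4).2
    have h2 := hF3p i hi
    rw [hj2, hj3] at h1
    linarith
  -- density of F3
  have hN0 : (0 : ℝ) ≤ (K.N : ℝ) := Nat.cast_nonneg _
  have hcard : (E1.card : ℝ) ≤ (F3.card : ℝ) + Bad1.card + Bad2.card := by
    have h1 : E1.card ≤ F2.card + Bad1.card := by
      rw [hF2]
      have := card_le_card_sdiff_add_card (s := E1) (t := Bad1)
      omega
    have h2 : F2.card ≤ F3.card + Bad2.card := by
      rw [hF3]
      have := card_le_card_sdiff_add_card (s := F2) (t := Bad2)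
      omega
    have h3 : E1.card ≤ F3.card + Bad1.card + Bad2.card := by omega
    exact_mod_cast h3
  have hdens : (K.N : ℝ) ≤ D ^ (k + 1) * (F3.card : ℝ) :=
    X5HL.dens hD2 hcon hB' hA' (Nat.cast_nonneg _) hN0 hcard
  have hpow : ∀ a : ℕ, a ≤ 3 * k + 30 → D ^ a ≤ D ^ (3 * k + 30) := fun a ha =>
    pow_le_pow_right₀ hD1 ha
  -- the lines of the units
  let R : ι → ℕ → Finset ι := fun p c => (PSr K r m H z c).filter (fun s => ∀ i ∈ F3, K.a i = p →
    cell K r z i = c →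
      |K.ht s (L.h0 z i) - K.ht (K.a i) (L.h0 z i)| ≤
        2 * D * rd K r m H s0 e0 (4 * x - 1) (K.a i) ∧
      |K.ht s (L.h1 z i) - K.ht (K.a i) (L.h1 z i)| ≤
        2 * D * rd K r m H s0 e0 (4 * x - 1) (K.a i))
  have hn0 : (0 : ℝ) < (Fintype.card ι : ℝ) :=
    lt_of_lt_of_le (pow_pos hr0 _) hBig.rn
  have hmain := hC0 ι K r H D hB0 z x' hzx' (by omega) (κ x') F3
    (fun i hi => hOne.hyg i (hF3E hi)) (fun i hi => hhash.edge i (hF3E hi))
    (hdens.trans (mul_le_mul_of_nonneg_right (hpow _ (by omega)) (Nat.cast_nonneg _)))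
    (fun i hi => by
      refine (hF3p i hi).trans ?_
      refine mul_le_mul (mul_le_mul_of_nonneg_right (hpow _ (by omega)) (by positivity)) ?_
        (Nat.cast_nonneg _) (by positivity)
      have h1 := card_le_card (hF3s i hi)
      convert (Nat.cast_le (α := ℝ)).2 h1 using 4)
    (fun i hi => by
      have h1 := hF2c i (hF3F2 hi)
      have h2 : ((F3.filter (fun j => κ x' (K.a j) = κ x' (K.a i) ∧
          cell K r z j = cell K r z i)).image (cell K r x')).card ≤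
          ((E1.filter (fun j => κ x' (K.a j) = κ x' (K.a i) ∧
          cell K r z j = cell K r z i)).image (cell K r x')).card :=
        card_le_card (image_subset_image (filter_subset_filter _ (hF3F2.trans hF2E)))
      have h3 := (Nat.cast_le (α := ℝ)).2 h2
      have h4 : D ^ (3 * (k + 2) + 19) * (r : ℝ) ^ (x' - z) ≤
          D ^ (3 * k + 30) * (r : ℝ) ^ (x' - z) :=
        mul_le_mul_of_nonneg_right (hpow _ (by omega)) (by positivity)
      have h5 := h3.trans (h1.trans h4)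
      convert h5 using 5)
    R ((Fintype.card ι : ℝ) / (r : ℝ) ^ (2 * x + 2 * y + k8 e kp l + 1))
    (fun i hi => by
      refine ⟨filter_subset _ _, fun s hs => ?_, ?_⟩
      · obtain ⟨_, h2⟩ := mem_filter.1 hs
        obtain ⟨h3, h4⟩ := h2 i hi rfl rfl
        exact hRBV ι K r m H D s0 e0 L κ e kp l X2 X4 S E hD2 h2Dr hFlw hPos x z (by omega) x' hx'
          hxx' hz1' hzx' i (hF3E hi) s h3 h4
      · have h1 : unl K L κ E x y i ⊆ R (K.a i) (cell K r z i) := by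
          intro s hs
          have h2 := hRB ι K r m H D s0 e0 L κ e kp l X2 X4 S E hD2 (by omega) hOne x y z
            hxI.1 hxI.2 (by omega) (by omega) hz1' (by omega) i (hF3E hi)
            (hE1v i (hF2E (hF3F2 hi))) s hs
          refine mem_filter.2 ⟨h2.1, fun i' hi' ha hc => ?_⟩
          have h3 := hOne.lab.line z hz1' hzm i' (hF3E hi') i (hF3E hi) ha hc
          have h4 := hOne.lab.leq z hz1' hzm i' (hF3E hi') i (hF3E hi) h3
          rw [h4.2.1, h4.2.2.1, ha]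
          exact h2.2
        have h5 := hE1t i (hF2E (hF3F2 hi))
        have h6 := card_le_card h1
        have h7 : (Fintype.card ι : ℝ) ≤ ((R (K.a i) (cell K r z i)).card : ℝ) *
            (r : ℝ) ^ (2 * x + 2 * y + k8 e kp l + 1) := by
          have h8 := h5.trans (Nat.mul_le_mul_right (r ^ (2 * x + 2 * y + k8 e kp l + 1)) h6)
          exact_mod_cast h8
        rw [div_le_iff₀ (by positivity)]
        exact h7)
  -- conclusion
  have hexp : z + (2 * x + 2 * y + k8 e kp l + 1) + 4 = 4 * x' := by omega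
  have h1 : (r : ℝ) ^ (4 * x') * Fintype.card ι ≤
      D ^ C0 * (r : ℝ) ^ (z + (2 * x + 2 * y + k8 e kp l + 1)) * Fintype.card ι := by
    rw [div_mul_eq_mul_div, div_le_iff₀ (by positivity)] at hmain
    calc (r : ℝ) ^ (4 * x') * Fintype.card ι = (Fintype.card ι : ℝ) * (r : ℝ) ^ (4 * x') := by ring
      _ ≤ _ := hmain
      _ = _ := by rw [pow_add (r : ℝ) z]; ring
  have h2 := le_of_mul_le_mul_right h1 hn0
  rw [← hexp, pow_add (r : ℝ) _ 4] at h2
  have h3 : (r : ℝ) ^ 4 ≤ D ^ C0 := by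
    have h4 : 0 < (r : ℝ) ^ (z + (2 * x + 2 * y + k8 e kp l + 1)) := by positivity
    rw [mul_comm (D ^ C0)] at h2
    exact le_of_mul_le_mul_left h2 h4
  have h4 : D ^ C0 ≤ (r : ℝ) := by
    refine le_trans (pow_le_pow_right₀ hD1 (by omega)) hDr
  have h5 : (r : ℝ) < (r : ℝ) ^ 4 := by
    have h6 : (2 : ℝ) ≤ (r : ℝ) := by exact_mod_cast hr2
    nlinarith [pow_pos hr0 3, mul_pos hr0 hr0, pow_pos hr0 2]
  linarith

end Pool.Agent.Work.MP_e17eac_co.B5
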