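import Pool.Agent.Work.MP_e17eac_co.B5.St5

/-!
# B5: the upper bound for the hull lengths (HU)
-/

set_option autoImplicit false

namespace Pool.Agent.Work.MP_e17eac_co.B5

open Finset
open Pool.Agent.Work.MP_e17eac_co.DH
open Pool.Agent.Work.MP_e17eac_co.B1
open Pool.Agent.Work.MP_e17eac_co.BB

namespace X5HU

variable {ι : Type} [Fintype ι] [DecidableEq ι]

/-- The final computation. -/
theorem num {n r H D T P Q A1 A2 R U V W : ℝ} {k : ℕ} (hn : 0 < n) (hr : 0 < r) (hH : 1 ≤ H)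
    (hHD : H ≤ D) (hD : 2 ≤ D) (hDr : D ^ (6 * k + 40) ≤ r)
    (hT : 0 < T) (hU : 0 < U) (hV : 0 < V) (hR : 0 ≤ R) (hW : 0 ≤ W) (hP : 0 ≤ P)
    (hT4 : 0 < A1) (hA : T = A1 * r ^ 4)
    (h1 : n * R ≤ D ^ (3 * k + 18) * P) (h2 : P ≤ n * (H * R)) (hRR : R * R = T)
    (h3 : P ^ 2 ≤ (D * Q) * (P * (n / U) + n * ((n / V) * (2 * (H * W)))))
    (hQ : 0 ≤ Q) (e1 : Q * R = A1 * U) (e2 : Q * W = A1 * V) (hA2 : A2 = A1) : False := by
  have hD0 : 0 ≤ D := by linarith
  have h4 : (n * R) ^ 2 ≤ (D ^ (3 * k + 18)) ^ 2 * P ^ 2 := by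
    rw [← mul_pow]
    exact pow_le_pow_left₀ (by positivity) h1 2
  have h5 : P * (n / U) ≤ n * (H * R) * (n / U) :=
    mul_le_mul_of_nonneg_right h2 (by positivity)
  have h6 : P ^ 2 ≤ (D * Q) * (n * (H * R) * (n / U) + n * ((n / V) * (2 * (H * W)))) := by
    refine h3.trans (mul_le_mul_of_nonneg_left ?_ (by positivity))
    linarith
  have h7 : (D * Q) * (n * (H * R) * (n / U) + n * ((n / V) * (2 * (H * W)))) =
      3 * H * D * (n ^ 2 * A1) := by
    have a1 : Q * R / U = A1 := by rw [e1]; field_simp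
    have a2 : Q * W / V = A1 := by rw [e2]; field_simp
    have : (D * Q) * (n * (H * R) * (n / U) + n * ((n / V) * (2 * (H * W)))) =
        D * H * n ^ 2 * (Q * R / U + 2 * (Q * W / V)) := by
      field_simp
    rw [this, a1, a2]; ring
  have h8 : (n * R) ^ 2 ≤ (D ^ (3 * k + 18)) ^ 2 * (3 * H * D * (n ^ 2 * A1)) := by
    refine h4.trans (mul_le_mul_of_nonneg_left ?_ (by positivity))
    rw [← h7]; exact h6
  have h9 : (n * R) ^ 2 = n ^ 2 * A1 * r ^ 4 := by
    rw [mul_pow, pow_two R, hRR, hA]; ring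
  have h10 : (D ^ (3 * k + 18)) ^ 2 * (3 * H * D * (n ^ 2 * A1)) =
      n ^ 2 * A1 * (3 * H * D * D ^ (6 * k + 36)) := by
    rw [← pow_mul]
    have : (3 * k + 18) * 2 = 6 * k + 36 := by ring
    rw [this]; ring
  rw [h9, h10] at h8
  have h11 : r ^ 4 ≤ 3 * H * D * D ^ (6 * k + 36) :=
    le_of_mul_le_mul_left h8 (by positivity)
  have hr1 : 1 ≤ r := le_trans (one_le_pow₀ (by linarith)) hDr
  have h12 : r ≤ r ^ 4 := by
    calc r = r ^ 1 := (pow_one r).symm
      _ ≤ r ^ 4 := pow_le_pow_right₀ hr1 (by norm_num)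
  have h13 : 3 * H * D * D ^ (6 * k + 36) ≤ 3 * D * D * D ^ (6 * k + 36) := by
    gcongr
  have h14 : D ^ (6 * k + 40) = D * D * (D * D * D ^ (6 * k + 36)) := by ring
  have h15 : 0 < D * D * D ^ (6 * k + 36) := by positivity
  have h16 : 4 * (D * D * D ^ (6 * k + 36)) ≤ D * D * (D * D * D ^ (6 * k + 36)) := by
    apply mul_le_mul_of_nonneg_right _ h15.le
    nlinarith
  nlinarith

/-- Near lines at a label. -/
theorem near_le {K : KSys ι} {r m : ℕ} {H s0 e0 : ℝ} {L : Lab} {κ : ι → ℕ} {E E1 : Finset ℕ}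
    (hE1 : E1 ⊆ E) {x j i : ℕ} (cl : ι → ι → Prop) [∀ p q, Decidable (cl p q)]
    (hcl : ∀ p q, cl p q → 10 * dist0 K s0 e0 q p < rd K r m H s0 e0 j p) :
    ((E1.image (fun i => (L.lab x i, K.a i))).filter (fun w' => w'.1 = L.lab x i ∧
      κ w'.2 = κ (K.a i) ∧ cl (K.a i) w'.2)).card ≤ near K r m H s0 e0 L E x j i := by
  classical
  unfold near
  refine Finset.card_le_card_of_injOn (fun w => w.2) ?_ ?_
  · intro w hw
    rw [Finset.mem_coe, mem_filter, mem_image] at hw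
    obtain ⟨⟨i', hi', rfl⟩, h1, h2, h3⟩ := hw
    rw [Finset.mem_coe, mem_filter]
    exact ⟨mem_image_of_mem _ (hE1 hi'), ⟨i', hE1 hi', rfl, h1⟩, hcl _ _ h3⟩
  · intro w hw w' hw' h
    rw [Finset.mem_coe, mem_filter] at hw hw'
    exact Prod.ext (hw.2.1.trans hw'.2.1.symm) h

theorem sq_near {a n r : ℕ} (hr : 1 ≤ r) {u v : ℕ} (h : a ^ 2 * r ^ (2 * u + v) ≤ n ^ 2 * r ^ v) :
    a * r ^ u ≤ n := by
  have h1 : (a * r ^ u) ^ 2 * r ^ v ≤ n ^ 2 * r ^ v := by
    refine le_trans (le_of_eq ?_) h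
    rw [mul_pow, ← pow_mul, mul_assoc, ← pow_add, Nat.mul_comm u 2]
  have h2 : (a * r ^ u) ^ 2 ≤ n ^ 2 := Nat.le_of_mul_le_mul_right h1 (by positivity)
  exact (Nat.pow_le_pow_iff_left (by norm_num)).1 h2

end X5HU

/-- **(HU)**. -/
theorem I5_HU (hPairs : StPairs) (hLab : StLabCnt) (hTri : StTri) (hCommon : StCommon)
    (hCls : StCls) : StHU := by
  classical
  intro m e kp l k
  refine ⟨6 * k + 40, ?_⟩
  intro ι _ _ K r H D s0 e0 L κ X2 X4 S E big flw pos5 x hxS y hy1 hyx hx2y hxt hzx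
  by_contra hcon
  rw [not_le] at hcon
  set E1 := huV K r m H s0 e0 L e kp l E x y with hE1def
  have hE1 : E1 ⊆ E := filter_subset _ _
  have one := flw.one
  have hr2 : 2 ≤ r := big.std.two
  have hr1 : 1 ≤ r := by omega
  have hr0 : (0 : ℝ) < (r : ℝ) := by exact_mod_cast hr1
  have hD2 : 2 ≤ D := big.D2
  have hD0 : 0 ≤ D := by linarith
  have hD1 : 1 ≤ D := by linarith
  have hH1 : 1 ≤ H := big.std.one
  have hk6 : k6 kp l = 44 + 4 * l + kp := rfl
  have hkb : kb e kp l = 2 * k8 e kp l + kN kp l + 8 := rfl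
  have hkz : kz e kp l = k8 e kp l + k6 kp l + 5 := rfl
  have hkt : kt e kp l = kb e kp l + 4 * k6 kp l + kp := rfl
  have hlev := one.lev
  have hxm : x ≤ m := by omega
  have hx1 : 1 ≤ x := by omega
  have hn1 : 1 ≤ Fintype.card ι := by
    have h1 : (1 : ℝ) ≤ (r : ℝ) ^ ((6 * k + 40) * (m + 1)) :=
      one_le_pow₀ (by exact_mod_cast hr1)
    exact_mod_cast h1.trans big.rn
  have hn0 : (0 : ℝ) < (Fintype.card ι : ℝ) := by exact_mod_cast hn1
  have big1 : Big K r m H D 1 := by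
    refine ⟨big.std, big.gp, big.HD, big.D2, big.log, big.ub, ?_, ?_⟩
    · exact (pow_le_pow_right₀ hD1 (by omega)).trans big.Dr
    · exact (pow_le_pow_right₀ (by exact_mod_cast hr1)
        (Nat.mul_le_mul_right _ (by omega))).trans big.rn
  have h30 : 30 * D ≤ r := by
    refine le_trans ?_ big.Dr
    have h1 : (2 : ℝ) ^ 5 ≤ D ^ 5 := pow_le_pow_left₀ (by norm_num) hD2 5
    have h2 : D ^ 6 ≤ D ^ (6 * k + 40) := pow_le_pow_right₀ hD1 (by omega)
    have h3 : D ^ 6 = D ^ 5 * D := by ring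
    nlinarith
  have hyg1 : ∀ i ∈ E1, Hyg K r m H i := fun i hi => one.hyg i (hE1 hi)
  -- the pairs
  set PL := E1.image (fun i => (L.lab x i, K.a i)) with hPL
  have f1 := hPairs ι K r m H D big1 k x hxm E1 hyg1 hcon.le
  obtain ⟨f2, f3, f4, -⟩ := hLab ι K r m H D s0 e0 L E hD0 (by linarith) hr1 one.lab one.hyg x
    hx1 hxm E1 hE1
  rw [← f2, ← hPL] at f1
  rw [← hPL] at f3
  have f5 := f4 (κ y)
  have f6 : ((E1.image (fun i => (cell K r x i, κ y (K.a i)))).card : ℝ) ≤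
      (r : ℝ) ^ (3 * x + 2 * y + k8 e kp l) := by
    have h1 : (E1.image (fun i => (cell K r x i, κ y (K.a i)))).card ≤
        (E.image (fun i => (cell K r x i, κ y (K.a i)))).card :=
      card_le_card (image_subset_image hE1)
    exact_mod_cast h1.trans (flw.flux x hxS y hy1 hyx hx2y hxt)
  have f7 : ((PL.image (fun w => (w.1, κ y w.2))).card : ℝ) ≤
      D * (r : ℝ) ^ (3 * x + 2 * y + k8 e kp l) := by
    have h1 : PL.image (fun w => (w.1, κ y w.2)) =
        E1.image (fun i => (L.lab x i, κ y (K.a i))) := by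
      rw [hPL, image_image]; rfl
    rw [h1]
    exact f5.trans (mul_le_mul_of_nonneg_left f6 hD0)
  set j := 4 * y + kb e kp l with hj
  set z := 2 * (x - y) + kz e kp l with hz
  -- the triples
  have t1 : ∀ w ∈ PL, ((PL.filter (fun w' => w'.1 = w.1 ∧ κ y w'.2 = κ y w.2 ∧
      10 * dist0 K s0 e0 w'.2 w.2 < rd K r m H s0 e0 j w.2)).card : ℝ) ≤
      (Fintype.card ι : ℝ) / (r : ℝ) ^ (2 * x + 2 * y + k8 e kp l + 4) := by
    intro w hw
    obtain ⟨i, hi, rfl⟩ := mem_image.1 hw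
    rw [le_div_iff₀ (by positivity)]
    have h1 := X5HU.near_le (K := K) (r := r) (m := m) (H := H) (s0 := s0) (e0 := e0) (L := L)
      (κ := κ y) hE1 (x := x) (j := j) (i := i)
      (fun p q => 10 * dist0 K s0 e0 q p < rd K r m H s0 e0 j p) (fun p q h => h)
    have h2 := flw.near x hx1 hxm j (by omega) (by omega) i (hE1 hi)
    have h3 : near K r m H s0 e0 L E x j i * r ^ (2 * x + 2 * y + k8 e kp l + 4) ≤
        Fintype.card ι := by
      refine X5HU.sq_near hr1 (v := kN kp l) ?_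
      have h4 : 2 * (2 * x + 2 * y + k8 e kp l + 4) + kN kp l = 4 * x + j := by omega
      rw [h4]; exact h2
    exact_mod_cast (Nat.mul_le_mul_right _ h1).trans h3
  have t2 : ∀ p q, ¬ (10 * dist0 K s0 e0 q p < rd K r m H s0 e0 j p) →
      ((((PL.filter (fun w => w.2 = p)).image Prod.fst ∩
      (PL.filter (fun w => w.2 = q)).image Prod.fst).card : ℕ) : ℝ) ≤
      2 * (H * (r : ℝ) ^ (x - z)) := by
    intro p q hpq
    have h1 := hCommon ι K r m H D s0 e0 L κ e kp l X2 X4 S E h30 hD1 (by linarith) one z x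
      (by omega) hzx (by omega) (by omega) j E1 hE1 (fun i hi => (mem_filter.1 hi).2) p q
      (not_lt.1 hpq)
    have h2 : ∀ p : ι, (PL.filter (fun w => w.2 = p)).image Prod.fst =
        (E1.filter (fun i => K.a i = p)).image (L.lab x) := by
      intro p
      ext c
      simp only [hPL, mem_image, mem_filter]
      constructor
      · rintro ⟨w, ⟨⟨i, hi, rfl⟩, hp⟩, rfl⟩
        exact ⟨i, ⟨hi, hp⟩, rfl⟩
      · rintro ⟨i, ⟨hi, hp⟩, rfl⟩
        exact ⟨(L.lab x i, K.a i), ⟨⟨i, hi, rfl⟩, hp⟩, rfl⟩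
    rw [h2, h2]
    exact h1
  have hsnd : PL.image Prod.snd = E1.image K.a := by
    rw [hPL, image_image]; rfl
  have t3 : ∀ p ∈ PL.image Prod.snd, (((PL.image Prod.snd).filter
      (fun q => κ y q = κ y p)).card : ℝ) ≤
      (Fintype.card ι : ℝ) / (r : ℝ) ^ (4 * y - 1 - k6 kp l) := by
    intro p hp
    rw [hsnd] at hp ⊢
    obtain ⟨i, hi, rfl⟩ := mem_image.1 hp
    rw [le_div_iff₀ (by positivity)]
    refine le_trans ?_ (hCls ι K r m H D s0 e0 L κ e kp l X2 X4 S E hr2 flw pos5 y hy1 (by omega)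
      i (hE1 hi))
    refine mul_le_mul_of_nonneg_right ?_ (by positivity)
    exact_mod_cast card_le_card (filter_subset_filter _ (image_subset_image hE1))
  have t4 : ((PL.image Prod.snd).card : ℝ) ≤ (Fintype.card ι : ℝ) := by
    exact_mod_cast card_le_univ _
  have t5 := hTri ι PL (κ y) (fun p q => 10 * dist0 K s0 e0 q p < rd K r m H s0 e0 j p)
    ((Fintype.card ι : ℝ) / (r : ℝ) ^ (2 * x + 2 * y + k8 e kp l + 4))
    (2 * (H * (r : ℝ) ^ (x - z))) ((Fintype.card ι : ℝ) / (r : ℝ) ^ (4 * y - 1 - k6 kp l))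
    (Fintype.card ι : ℝ) (by positivity) (by positivity) (by positivity) t1 t2 t3 t4
  refine X5HU.num (n := (Fintype.card ι : ℝ)) (r := (r : ℝ)) (H := H) (D := D)
    (T := (r : ℝ) ^ (2 * x)) (P := (PL.card : ℝ))
    (Q := (r : ℝ) ^ (3 * x + 2 * y + k8 e kp l)) (A1 := (r : ℝ) ^ (2 * x - 4))
    (A2 := (r : ℝ) ^ (2 * x - 4))
    (R := (r : ℝ) ^ x) (U := (r : ℝ) ^ (2 * x + 2 * y + k8 e kp l + 4))
    (V := (r : ℝ) ^ (4 * y - 1 - k6 kp l)) (W := (r : ℝ) ^ (x - z)) (k := k)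
    hn0 hr0 hH1 big.HD hD2 big.Dr (by positivity) (by positivity) (by positivity) (by positivity)
    (by positivity) (by positivity) (by positivity) ?_ f1 f3 ?_ ?_ (by positivity) ?_ ?_ rfl
  · rw [← pow_add]; congr 1; omega
  · rw [← pow_add]; congr 1; omega
  · refine t5.trans (mul_le_mul_of_nonneg_right f7 ?_)
    positivity
  · rw [← pow_add, ← pow_add]; congr 1; omega
  · rw [← pow_add, ← pow_add]; congr 1; omega

end Pool.Agent.Work.MP_e17eac_co.B5
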