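import Pool.Agent.Work.MP_e17eac_co.B5.St5

set_option autoImplicit false

namespace Pool.Agent.Work.MP_e17eac_co.B5

open Finset
open Pool.Agent.Work.MP_e17eac_co.DH
open Pool.Agent.Work.MP_e17eac_co.B1
open Pool.Agent.Work.MP_e17eac_co.BB

namespace X5LAB

theorem card_image_le_of {α β : Type} [DecidableEq α] [DecidableEq β] (F : Finset ℕ)
    (f : ℕ → α) (g : ℕ → β) (h : ∀ i ∈ F, ∀ j ∈ F, g i = g j → f i = f j) :
    (F.image f).card ≤ (F.image g).card := by
  classical
  refine Finset.card_le_card_of_surjOn
    (fun b => if hb : ∃ i ∈ F, g i = b then f hb.choose else f 0) ?_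
  intro a ha
  rw [Finset.mem_coe, Finset.mem_image] at ha
  obtain ⟨i, hi, rfl⟩ := ha
  refine ⟨g i, ?_, ?_⟩
  · exact Finset.mem_coe.mpr (Finset.mem_image_of_mem g hi)
  · have hb : ∃ i' ∈ F, g i' = g i := ⟨i, hi, rfl⟩
    simp only [dif_pos hb]
    exact h _ hb.choose_spec.1 _ hi hb.choose_spec.2

theorem card_image_eq_of {α β : Type} [DecidableEq α] [DecidableEq β] (F : Finset ℕ)
    (f : ℕ → α) (g : ℕ → β) (h : ∀ i ∈ F, ∀ j ∈ F, g i = g j ↔ f i = f j) :
    (F.image f).card = (F.image g).card :=
  le_antisymm (card_image_le_of F f g fun i hi j hj => (h i hi j hj).1)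
    (card_image_le_of F g f fun i hi j hj => (h i hi j hj).2)

variable {ι : Type} [Fintype ι] [DecidableEq ι]

theorem mem_vis_a (K : KSys ι) (r x i : ℕ) (hi : i < K.N) :
    K.a i ∈ vis K r x (cell K r x i) := by
  unfold vis KSys.lines ce
  refine Finset.mem_union_left _ (Finset.mem_image_of_mem _ ?_)
  rw [Finset.mem_filter, Finset.mem_range]
  exact ⟨hi, rfl⟩

end X5LAB

open X5LAB in
theorem I5_LAB (hCell : StCell) : StLabCnt := by
  classical
  intro ι _ _ K r m H D s0 e0 L E hD hH hr hL hHyg x hx1 hxm F hFE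
  have key : ∀ i ∈ F, ∀ j ∈ F, K.a i = K.a j →
      (cell K r x i = cell K r x j ↔ L.lab x i = L.lab x j) := by
    intro i hi j hj hij
    exact ⟨fun h => hL.line x hx1 hxm i (hFE hi) j (hFE hj) hij h,
      fun h => (hL.leq x hx1 hxm i (hFE hi) j (hFE hj) h).1⟩
  have hone : (F.image (fun i => (L.lab x i, K.a i))).card =
      (F.image (fun i => (cell K r x i, K.a i))).card := by
    apply card_image_eq_of
    intro i hi j hj
    rw [Prod.mk.injEq, Prod.mk.injEq]
    constructor
    · rintro ⟨h1, h2⟩
      exact ⟨(key i hi j hj h2).1 h1, h2⟩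
    · rintro ⟨h1, h2⟩
      exact ⟨(key i hi j hj h2).2 h1, h2⟩
  have hcellx := hCell ι K r x hr
  refine ⟨hone, ?_, ?_, ?_⟩
  · rw [hone]
    set T := F.image (fun i => (cell K r x i, K.a i)) with hT
    have hfib : T.card = ∑ p ∈ (Finset.univ : Finset ι), (T.filter (fun w => w.2 = p)).card :=
      Finset.card_eq_sum_card_fiberwise (fun w _ => Finset.mem_coe.mpr (Finset.mem_univ w.2))
    have hb : ∀ p ∈ (Finset.univ : Finset ι),
        ((T.filter (fun w => w.2 = p)).card : ℝ) ≤ H * (r : ℝ) ^ x := by
      intro p _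
      by_cases hne : (T.filter (fun w => w.2 = p)) = ∅
      · rw [hne, Finset.card_empty, Nat.cast_zero]
        positivity
      · obtain ⟨w, hw⟩ := Finset.nonempty_of_ne_empty hne
        rw [Finset.mem_filter, hT, Finset.mem_image] at hw
        obtain ⟨⟨i, hi, hiw⟩, hwp⟩ := hw
        have hp : p = K.a i := by rw [← hwp, ← hiw]
        have hps : K.a i ∈ PS K r m H := (hHyg i (hFE hi)).ps false
        have hW : (W K r x (K.a i) : ℝ) ≤ H * (r : ℝ) ^ x := by
          unfold PS at hps
          rw [Finset.mem_filter] at hps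
          exact hps.2 x hxm
        refine le_trans ?_ hW
        rw [hp]
        unfold W
        norm_cast
        apply Finset.card_le_card_of_injOn Prod.fst
        · intro w' hw'
          rw [Finset.mem_coe, Finset.mem_filter, hT, Finset.mem_image] at hw'
          obtain ⟨⟨j, hj, hjw⟩, hwp'⟩ := hw'
          have hjN : j < K.N := (hHyg j (hFE hj)).lt
          rw [Finset.mem_coe, Finset.mem_filter, Finset.mem_range, ← hjw]
          refine ⟨hcellx.1 j hjN, ?_⟩
          have hja : K.a j = K.a i := by rw [← hwp', ← hjw]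
          rw [← hja]
          exact mem_vis_a K r x j hjN
        · intro w1 h1 w2 h2 h12
          rw [Finset.mem_coe, Finset.mem_filter] at h1 h2
          exact Prod.ext h12 (h1.2.trans h2.2.symm)
    rw [hfib]
    push_cast
    calc ∑ p ∈ (Finset.univ : Finset ι), ((T.filter (fun w => w.2 = p)).card : ℝ)
        ≤ ∑ p ∈ (Finset.univ : Finset ι), H * (r : ℝ) ^ x := Finset.sum_le_sum hb
      _ = Fintype.card ι * (H * (r : ℝ) ^ x) := by
          rw [Finset.sum_const, nsmul_eq_mul, Finset.card_univ]
  · intro f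
    set T := F.image (fun i => (cell K r x i, f (K.a i))) with hT
    have hsub : F.image (fun i => (L.lab x i, f (K.a i))) ⊆
        T.biUnion (fun w => ((E.filter (fun i => cell K r x i = w.1)).image (L.lab x)) ×ˢ
          ({w.2} : Finset ℕ)) := by
      intro u hu
      rw [Finset.mem_image] at hu
      obtain ⟨i, hi, rfl⟩ := hu
      rw [Finset.mem_biUnion]
      refine ⟨(cell K r x i, f (K.a i)), Finset.mem_image_of_mem _ hi, ?_⟩
      rw [Finset.mem_product]
      refine ⟨Finset.mem_image_of_mem _ ?_, Finset.mem_singleton_self _⟩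
      rw [Finset.mem_filter]
      exact ⟨hFE hi, rfl⟩
    have h1 : ((F.image (fun i => (L.lab x i, f (K.a i)))).card : ℝ) ≤
        ∑ w ∈ T, (((E.filter (fun i => cell K r x i = w.1)).image (L.lab x)).card : ℝ) := by
      have h2 := (Finset.card_le_card hsub).trans Finset.card_biUnion_le
      have h3 : (F.image (fun i => (L.lab x i, f (K.a i)))).card ≤
          ∑ w ∈ T, ((E.filter (fun i => cell K r x i = w.1)).image (L.lab x)).card := by
        refine h2.trans (le_of_eq (Finset.sum_congr rfl fun w _ => ?_))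
        rw [Finset.card_product, Finset.card_singleton, mul_one]
      exact_mod_cast h3
    refine h1.trans ?_
    calc ∑ w ∈ T, (((E.filter (fun i => cell K r x i = w.1)).image (L.lab x)).card : ℝ)
        ≤ ∑ w ∈ T, D := Finset.sum_le_sum fun w _ => hL.few x hx1 hxm w.1
      _ = D * T.card := by rw [Finset.sum_const, nsmul_eq_mul, mul_comm]
  · intro z hz p c
    set G := F.filter (fun i => K.a i = p ∧ cell K r z i = c) with hG
    by_cases hne : G = ∅
    · rw [hne, Finset.image_empty, Finset.card_empty, Nat.cast_zero]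
      positivity
    · obtain ⟨i, hi⟩ := Finset.nonempty_of_ne_empty hne
      rw [hG, Finset.mem_filter] at hi
      obtain ⟨hiF, hip, hic⟩ := hi
      have hrel : K.a i ∈ PSr K r m H z (cell K r z i) :=
        (hHyg i (hFE hiF)).rel false z (le_trans hz hxm)
      have hWr : (Wr K r z c x p : ℝ) ≤ H * (r : ℝ) ^ (x - z) := by
        unfold PSr at hrel
        rw [Finset.mem_filter] at hrel
        have := hrel.2 x hz hxm
        rwa [hic, hip] at this
      refine le_trans ?_ hWr
      have heq : (G.image (L.lab x)).card = (G.image (cell K r x)).card := by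
        apply card_image_eq_of
        intro j hj j' hj'
        rw [hG, Finset.mem_filter] at hj hj'
        exact key j hj.1 j' hj'.1 (hj.2.1.trans hj'.2.1.symm)
      rw [heq]
      unfold Wr
      norm_cast
      apply Finset.card_le_card
      intro w hw
      rw [Finset.mem_image] at hw
      obtain ⟨j, hj, rfl⟩ := hw
      rw [hG, Finset.mem_filter] at hj
      have hjN : j < K.N := (hHyg j (hFE hj.1)).lt
      rw [Finset.mem_filter, Finset.mem_range]
      refine ⟨hcellx.1 j hjN, ?_, ?_⟩
      · rw [← hcellx.2.2.1 z hz j]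
        exact hj.2.2
      · rw [← hj.2.1]
        exact mem_vis_a K r x j hjN

end Pool.Agent.Work.MP_e17eac_co.B5
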