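import Pool.Agent.Work.MP_e17eac_co.B5.St5

/-!
# Item B5 PAIRS: many edges have many pairs (cell, line)
-/

namespace Pool.Agent.Work.MP_e17eac_co.B5

open Finset
open Pool.Agent.Work.MP_e17eac_co.DH
open Pool.Agent.Work.MP_e17eac_co.B1
open Pool.Agent.Work.MP_e17eac_co.BB

namespace X5PAIRS

theorem cube43 (n : ℝ) (hn : 0 ≤ n) : (n ^ ((4 : ℝ) / 3)) ^ 3 = n ^ 4 := by
  rw [← Real.rpow_natCast (n ^ ((4 : ℝ) / 3)) 3, ← Real.rpow_mul hn]
  norm_num

theorem num (n N F H D P R : ℝ) (k : ℕ) (hn : 0 < n) (hN : 0 ≤ N) (_hF : 0 ≤ F) (hH : 1 ≤ H)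
    (hD : 2 ≤ D) (hHD : H ≤ D) (hP : 0 ≤ P) (hR : 0 ≤ R) (h1 : F ^ 3 * R ≤ 4096 * H ^ 3 * n ^ 3 * P)
    (h2 : N ≤ D ^ k * F) (h3 : n ^ ((4 : ℝ) / 3) ≤ H * N) : n * R ≤ D ^ (3 * k + 18) * P := by
  have hD0 : 0 < D := by linarith
  have hH0 : 0 < H := by linarith
  have a1 : n ^ 4 ≤ (H * N) ^ 3 := by
    rw [← cube43 n hn.le]
    exact pow_le_pow_left₀ (Real.rpow_nonneg hn.le _) h3 3
  have a2 : N ^ 3 ≤ (D ^ k * F) ^ 3 := pow_le_pow_left₀ hN h2 3
  have a3 : n ^ 3 * (n * R) ≤ n ^ 3 * (4096 * H ^ 6 * D ^ (3 * k) * P) := by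
    calc n ^ 3 * (n * R) = n ^ 4 * R := by ring
      _ ≤ (H * N) ^ 3 * R := mul_le_mul_of_nonneg_right a1 hR
      _ = H ^ 3 * (N ^ 3 * R) := by ring
      _ ≤ H ^ 3 * ((D ^ k * F) ^ 3 * R) :=
          mul_le_mul_of_nonneg_left (mul_le_mul_of_nonneg_right a2 hR) (by positivity)
      _ = H ^ 3 * (D ^ (3 * k) * (F ^ 3 * R)) := by
          rw [mul_pow, ← pow_mul, mul_comm k 3]
          ring
      _ ≤ H ^ 3 * (D ^ (3 * k) * (4096 * H ^ 3 * n ^ 3 * P)) :=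
          mul_le_mul_of_nonneg_left (mul_le_mul_of_nonneg_left h1 (by positivity)) (by positivity)
      _ = _ := by ring
  have a4 := le_of_mul_le_mul_left a3 (by positivity)
  refine a4.trans ?_
  have b1 : (4096 : ℝ) ≤ D ^ 12 := by
    calc (4096 : ℝ) = 2 ^ 12 := by norm_num
      _ ≤ D ^ 12 := pow_le_pow_left₀ (by norm_num) hD 12
  have b2 : H ^ 6 ≤ D ^ 6 := pow_le_pow_left₀ hH0.le hHD 6
  have b3 : 4096 * H ^ 6 ≤ D ^ 12 * D ^ 6 := mul_le_mul b1 b2 (by positivity) (by positivity)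
  calc 4096 * H ^ 6 * D ^ (3 * k) * P ≤ D ^ 12 * D ^ 6 * D ^ (3 * k) * P := by
        apply mul_le_mul_of_nonneg_right _ hP
        exact mul_le_mul_of_nonneg_right b3 (by positivity)
    _ = D ^ (3 * k + 18) * P := by
        rw [← pow_add, ← pow_add]
        congr 2
        omega

end X5PAIRS

theorem I5_PAIRS (hFP : StFP) : StPairs := by
  intro ι _ _ K r m H D hBig k x hxm F hF hN
  have hr2 : 2 ≤ r := hBig.std.two
  have hH1 : 1 ≤ H := hBig.std.one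
  have hsub : F ⊆ range K.N := fun i hi => mem_range.2 (hF i hi).lt
  have h1 := (hFP ι K hBig.std.inj r x (by omega) H (by linarith) F hsub
    (fun i hi => (hF i hi).crowd x hxm) false).1
  rcases Nat.eq_zero_or_pos (Fintype.card ι) with h0 | h0
  · rw [h0]
    have hD0 : (0 : ℝ) ≤ D := by linarith [hBig.D2]
    simp only [Nat.cast_zero, zero_mul]
    positivity
  · exact X5PAIRS.num (Fintype.card ι) K.N F.card H D _ _ k (by exact_mod_cast h0)
      (Nat.cast_nonneg _) (Nat.cast_nonneg _) hH1 hBig.D2 hBig.HD (Nat.cast_nonneg _)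
      (by positivity) h1 hN hBig.std.dense

end Pool.Agent.Work.MP_e17eac_co.B5
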