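import Pool.Agent.Work.MP_e17eac_co.B5.St5

/-!
# Block B5, item POS: the mass radii are finite and positive
-/

set_option autoImplicit false

namespace Pool.Agent.Work.MP_e17eac_co.B5

open Finset
open Pool.Agent.Work.MP_e17eac_co.DH
open Pool.Agent.Work.MP_e17eac_co.B1
open Pool.Agent.Work.MP_e17eac_co.BB

namespace X5POS

theorem big_mono {ι : Type} [Fintype ι] [DecidableEq ι] {K : KSys ι} {r m : ℕ} {H D : ℝ}
    {C C' : ℕ} (h : Big K r m H D C') (hC : C ≤ C') : Big K r m H D C := by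
  have h2 : (1 : ℝ) ≤ D := by linarith [h.D2]
  have hr : (1 : ℝ) ≤ (r : ℝ) := by
    have := h.std.two
    exact_mod_cast (by omega : 1 ≤ r)
  exact ⟨h.std, h.gp, h.HD, h.D2, h.log, h.ub, (pow_le_pow_right₀ h2 hC).trans h.Dr,
    (pow_le_pow_right₀ hr (Nat.mul_le_mul_right _ hC)).trans h.rn⟩

end X5POS

theorem I5_POS (hBig : BB.StOneBig) (hRad : BB.StRad) : StPos5 := by
  obtain ⟨C, hC⟩ := hBig
  refine ⟨max C 4, ?_⟩
  intro ι _ _ K r m H D s0 e0 L κ e kp l X2 X4 S E hB h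
  have hB1 : Big K r m H D C := X5POS.big_mono hB (le_max_left _ _)
  have hB4 : Big K r m H D 4 := X5POS.big_mono hB (le_max_right _ _)
  have hr1 : 1 ≤ r := by have := hB.std.two; omega
  have hbig := (hC ι K r m H D s0 e0 L κ e kp l X2 X4 S E hB1 h).2
  refine ⟨fun j hj => ?_, fun j hj1 hj2 i _ => ?_⟩
  · have h1 := hbig j hj
    exact_mod_cast h1
  · unfold rd
    refine (hRad ι K (PS K r m H) s0 e0 r h.lab.base hr1 j (hbig j hj1)).2.2.2.2.2
      hB.std.inj ?_ (K.a i)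
    have h2 : r ^ j ≤ r ^ (4 * (m + 1)) := Nat.pow_le_pow_right hr1 (by omega)
    have h3 : r ^ (4 * (m + 1)) ≤ Fintype.card ι := by exact_mod_cast hB4.rn
    exact h2.trans h3

end Pool.Agent.Work.MP_e17eac_co.B5
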