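import Pool.Agent.Work.MP_e17eac_co.B5.St5

/-!
# Item PRB: few edges in units with too many cells
-/

set_option autoImplicit false

namespace Pool.Agent.Work.MP_e17eac_co.B5

open Finset
open Pool.Agent.Work.MP_e17eac_co.DH
open Pool.Agent.Work.MP_e17eac_co.B1
open Pool.Agent.Work.MP_e17eac_co.BB

namespace X5PRB

variable {ι : Type} [Fintype ι] [DecidableEq ι]

/-- `n ^ 4 ≤ H ^ 3 * N ^ 3`. -/
theorem dense {K : KSys ι} {r m : ℕ} {H : ℝ} (h : Std K r m H) :
    (Fintype.card ι : ℝ) ^ 4 ≤ H ^ 3 * (K.N : ℝ) ^ 3 := by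
  have h1 := h.dense
  have hn : (0 : ℝ) ≤ (Fintype.card ι : ℝ) := by positivity
  have e : ((Fintype.card ι : ℝ) ^ ((4 : ℝ) / 3)) ^ 3 = (Fintype.card ι : ℝ) ^ 4 := by
    rw [← Real.rpow_natCast, ← Real.rpow_mul hn, ← Real.rpow_natCast]
    norm_num
  rw [← e, ← mul_pow]
  exact pow_le_pow_left₀ (by positivity) h1 3

/-- Pairs (cell, line) are counted line by line. -/
theorem pairs_le (F : Finset ℕ) (a : ℕ → ι) (c : ℕ → ℕ) (M : ℕ)
    (h : ∀ p, ((F.filter (fun i => a i = p)).image c).card ≤ M) :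
    (F.image (fun i => (c i, a i))).card ≤ Fintype.card ι * M := by
  have h1 : (F.image (fun i => (c i, a i))) ⊆
      (univ : Finset ι).biUnion (fun p => ((F.filter (fun i => a i = p)).image c).image
        (fun w => (w, p))) := by
    intro u hu
    simp only [mem_image] at hu
    obtain ⟨i, hi, rfl⟩ := hu
    simp only [mem_biUnion, mem_univ, true_and, mem_image, mem_filter, Prod.mk.injEq]
    exact ⟨a i, c i, ⟨i, ⟨hi, rfl⟩, rfl⟩, rfl, rfl⟩
  refine (card_le_card h1).trans (card_biUnion_le.trans ?_)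
  calc ∑ p : ι, (((F.filter (fun i => a i = p)).image c).image (fun w => (w, p))).card
      ≤ ∑ _p : ι, M := sum_le_sum fun p _ => card_image_le.trans (h p)
    _ = Fintype.card ι * M := by simp

/-- The number of `z`-cells in which a class has many `x`-cells. -/
theorem few_cells (Z : Finset ℕ) (T : ℕ → Finset ℕ) (A : Finset ℕ) (g : ℕ → ℕ) (τ : ℝ)
    (hT : ∀ c ∈ Z, T c ⊆ A) (hg : ∀ c ∈ Z, ∀ w ∈ T c, g w = c)
    (hτ : ∀ c ∈ Z, τ ≤ ((T c).card : ℝ)) : (Z.card : ℝ) * τ ≤ A.card := by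
  have h1 : (Z.biUnion T).card = ∑ c ∈ Z, (T c).card := by
    apply card_biUnion
    intro c hc c' hc' hne
    refine Finset.disjoint_left.2 ?_
    intro w hw hw'
    exact hne ((hg c hc w hw).symm.trans (hg c' hc' w hw'))
  have h2 : (Z.biUnion T).card ≤ A.card := card_le_card (biUnion_subset.2 hT)
  calc (Z.card : ℝ) * τ = ∑ _c ∈ Z, τ := by simp
    _ ≤ ∑ c ∈ Z, ((T c).card : ℝ) := sum_le_sum hτ
    _ = ((Z.biUnion T).card : ℝ) := by rw [h1]; push_cast; rfl
    _ ≤ A.card := by exact_mod_cast h2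

end X5PRB

open X5PRB in
theorem I5_PRB (hCell : StCell) (hFP : StFP) : StPruneB := by
  intro ι _ _ K r m H D hBig k z x hzx hxm E F f hHyg hFE hOK
  set a : ℕ := 3 * k + 19 with ha
  set F' : Finset ℕ := F.filter (fun i => D ^ a * (r : ℝ) ^ (x - z) <
    (((F.filter (fun j => f (K.a j) = f (K.a i) ∧ cell K r z j = cell K r z i)).image
      (cell K r x)).card : ℝ)) with hF'
  have hr2 : 2 ≤ r := hBig.std.two
  have hr1 : 1 ≤ r := by omega
  have hrR : (1 : ℝ) ≤ (r : ℝ) := by exact_mod_cast hr1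
  have hD2 : (2 : ℝ) ≤ D := hBig.D2
  have hD1 : (1 : ℝ) ≤ D := by linarith
  have hH1 : (1 : ℝ) ≤ H := hBig.std.one
  have hHD : H ≤ D := hBig.HD
  have hF'F : F' ⊆ F := filter_subset _ _
  -- the z-cell of an x-cell
  have hcz := (hCell ι K r x hr1).2.2.1 z hzx
  -- few z-cells for every class
  have hcls : ∀ p : ι, ((((F'.filter (fun i => K.a i = p)).image (cell K r z)).card : ℝ)) * D ^ a ≤
      D * (r : ℝ) ^ z := by
    intro p
    set Z := (F'.filter (fun i => K.a i = p)).image (cell K r z) with hZ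
    have h1 := few_cells Z (fun c => (F.filter (fun j => f (K.a j) = f p ∧
        cell K r z j = c)).image (cell K r x))
      ((E.filter (fun i => f (K.a i) = f p)).image (cell K r x))
      (fun w => w / r ^ (4 * (x - z))) (D ^ a * (r : ℝ) ^ (x - z)) ?_ ?_ ?_
    · have h2 := hOK.act (f p)
      have h3 : (Z.card : ℝ) * (D ^ a * (r : ℝ) ^ (x - z)) ≤ D * (r : ℝ) ^ x := h1.trans h2
      have h4 : (r : ℝ) ^ x = (r : ℝ) ^ z * (r : ℝ) ^ (x - z) := by
        rw [← pow_add]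
        congr 1
        omega
      have h5 : (0 : ℝ) < (r : ℝ) ^ (x - z) := by positivity
      rw [h4] at h3
      have h6 : ((Z.card : ℝ) * D ^ a) * (r : ℝ) ^ (x - z) ≤
          (D * (r : ℝ) ^ z) * (r : ℝ) ^ (x - z) := by nlinarith
      exact le_of_mul_le_mul_right h6 h5
    · intro c _
      apply image_subset_image
      intro j hj
      rw [mem_filter] at hj ⊢
      exact ⟨hFE hj.1, hj.2.1⟩
    · intro c _ w hw
      rw [mem_image] at hw
      obtain ⟨j, hj, rfl⟩ := hw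
      rw [mem_filter] at hj
      rw [← hj.2.2]
      exact (hcz j).symm
    · intro c hc
      rw [hZ, mem_image] at hc
      obtain ⟨i, hi, rfl⟩ := hc
      rw [mem_filter] at hi
      obtain ⟨hi1, rfl⟩ := hi
      rw [hF', mem_filter] at hi1
      exact hi1.2.le
  -- the pairs
  have hpairs : (((F'.image (fun i => (cell K r z i, K.a i))).card : ℝ)) * D ^ a ≤
      Fintype.card ι * (D * (r : ℝ) ^ z) := by
    have hDa : (0 : ℝ) < D ^ a := by positivity
    have h1 := pairs_le F' K.a (cell K r z) ⌊(D * (r : ℝ) ^ z) / D ^ a⌋₊ (fun p => by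
      apply Nat.le_floor
      rw [le_div_iff₀ hDa]
      exact hcls p)
    have h2 : ((⌊(D * (r : ℝ) ^ z) / D ^ a⌋₊ : ℕ) : ℝ) ≤ (D * (r : ℝ) ^ z) / D ^ a :=
      Nat.floor_le (by positivity)
    have h3 : (((F'.image (fun i => (cell K r z i, K.a i))).card : ℝ)) ≤
        Fintype.card ι * ((D * (r : ℝ) ^ z) / D ^ a) := by
      have h4 : (((F'.image (fun i => (cell K r z i, K.a i))).card : ℝ)) ≤
          (Fintype.card ι : ℝ) * ((⌊(D * (r : ℝ) ^ z) / D ^ a⌋₊ : ℕ) : ℝ) := by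
        rw [← Nat.cast_mul]
        exact Nat.cast_le.2 h1
      exact h4.trans (mul_le_mul_of_nonneg_left h2 (by positivity))
    calc (((F'.image (fun i => (cell K r z i, K.a i))).card : ℝ)) * D ^ a
        ≤ (Fintype.card ι * ((D * (r : ℝ) ^ z) / D ^ a)) * D ^ a :=
          mul_le_mul_of_nonneg_right h3 hDa.le
      _ = Fintype.card ι * (D * (r : ℝ) ^ z) := by
          field_simp
  -- few pairs, few edges
  have hFP1 := (hFP ι K hBig.std.inj r z hr1 H (by linarith) F' (fun i hi => by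
      rw [mem_range]
      exact (hHyg i (hFE (hF'F hi))).lt) (fun i hi =>
      (hHyg i (hFE (hF'F hi))).crowd z (hzx.trans hxm)) false).1
  have hln : (fun i => (cell K r z i, K.ln false i)) = fun i => (cell K r z i, K.a i) := by
    funext i
    rfl
  rw [hln] at hFP1
  set n : ℝ := (Fintype.card ι : ℝ) with hn
  set Pc : ℝ := ((F'.image (fun i => (cell K r z i, K.a i))).card : ℝ) with hPc
  have hn0 : 0 ≤ n := by positivity
  have hPc0 : 0 ≤ Pc := by positivity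
  have hrz : (0 : ℝ) < (r : ℝ) ^ z := by positivity
  have hDa0 : (0 : ℝ) < D ^ a := by positivity
  have hdense := dense hBig.std
  have hH0 : 0 ≤ H := by linarith
  -- multiply
  have h1 : D ^ a * ((F'.card : ℝ) ^ 3 * (r : ℝ) ^ z) ≤
      4096 * H ^ 3 * n ^ 3 * (n * (D * (r : ℝ) ^ z)) := by
    calc D ^ a * ((F'.card : ℝ) ^ 3 * (r : ℝ) ^ z)
        ≤ D ^ a * (4096 * H ^ 3 * n ^ 3 * Pc) := mul_le_mul_of_nonneg_left hFP1 hDa0.le
      _ = 4096 * H ^ 3 * n ^ 3 * (Pc * D ^ a) := by ring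
      _ ≤ 4096 * H ^ 3 * n ^ 3 * (n * (D * (r : ℝ) ^ z)) :=
          mul_le_mul_of_nonneg_left hpairs (by positivity)
  have h2 : D ^ a * (F'.card : ℝ) ^ 3 ≤ 4096 * H ^ 3 * n ^ 4 * D := by
    have : (D ^ a * (F'.card : ℝ) ^ 3) * (r : ℝ) ^ z ≤
        (4096 * H ^ 3 * n ^ 4 * D) * (r : ℝ) ^ z := by
      calc (D ^ a * (F'.card : ℝ) ^ 3) * (r : ℝ) ^ z
          = D ^ a * ((F'.card : ℝ) ^ 3 * (r : ℝ) ^ z) := by ring
        _ ≤ 4096 * H ^ 3 * n ^ 3 * (n * (D * (r : ℝ) ^ z)) := h1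
        _ = (4096 * H ^ 3 * n ^ 4 * D) * (r : ℝ) ^ z := by ring
    exact le_of_mul_le_mul_right this hrz
  have h3 : 4096 * H ^ 3 * n ^ 4 * D ≤ D ^ 19 * (K.N : ℝ) ^ 3 := by
    have hD12 : (4096 : ℝ) ≤ D ^ 12 := by
      calc (4096 : ℝ) = 2 ^ 12 := by norm_num
        _ ≤ D ^ 12 := pow_le_pow_left₀ (by norm_num) hD2 12
    have hH3 : H ^ 3 ≤ D ^ 3 := pow_le_pow_left₀ hH0 hHD 3
    calc 4096 * H ^ 3 * n ^ 4 * D ≤ 4096 * H ^ 3 * (H ^ 3 * (K.N : ℝ) ^ 3) * D := by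
          gcongr
      _ ≤ D ^ 12 * D ^ 3 * (D ^ 3 * (K.N : ℝ) ^ 3) * D := by
          gcongr
      _ = D ^ 19 * (K.N : ℝ) ^ 3 := by ring
  have h4 : (D ^ k * (F'.card : ℝ)) ^ 3 ≤ (K.N : ℝ) ^ 3 := by
    have h5 : D ^ 19 * (D ^ k * (F'.card : ℝ)) ^ 3 ≤ D ^ 19 * (K.N : ℝ) ^ 3 := by
      calc D ^ 19 * (D ^ k * (F'.card : ℝ)) ^ 3 = D ^ a * (F'.card : ℝ) ^ 3 := by
            rw [ha, mul_pow, ← pow_mul, pow_add]
            ring
        _ ≤ D ^ 19 * (K.N : ℝ) ^ 3 := h2.trans h3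
    exact le_of_mul_le_mul_left h5 (by positivity)
  exact le_of_pow_le_pow_left₀ (by norm_num) (by positivity) h4

end Pool.Agent.Work.MP_e17eac_co.B5
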