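import Pool.Agent.Work.MP_e17eac_co.B5.St5

/-!
# Arbitrary sets, blueprint part B-5: item PRF
-/

set_option autoImplicit false

namespace Pool.Agent.Work.MP_e17eac_co.B5

open Finset
open Pool.Agent.Work.MP_e17eac_co.DH
open Pool.Agent.Work.MP_e17eac_co.B1
open Pool.Agent.Work.MP_e17eac_co.BB

namespace X5PRF

variable {ι : Type} [Fintype ι] [DecidableEq ι]

theorem hull_nest {K : KSys ι} {r m : ℕ} {D s0 e0 : ℝ} {L : Lab} {E : Finset ℕ}
    (h : LabOK K r m D s0 e0 L E) {i : ℕ} (hi : i ∈ E) {z : ℕ} (hz : 1 ≤ z) :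
    ∀ d, z + d ≤ m → L.h0 z i ≤ L.h0 (z + d) i ∧ L.h1 (z + d) i ≤ L.h1 z i
  | 0, _ => by simp
  | d + 1, hd => by
      have ih := hull_nest h hi hz d (by omega)
      have h1 := h.nest (z + d) (by omega) (by omega) i hi
      exact ⟨ih.1.trans h1.1, h1.2.trans ih.2⟩

theorem pg_pos (s0 e0 : ℝ) (L : Lab) (i : ℕ) {z : ℕ} (hz : 1 ≤ z) :
    pg s0 e0 L i z = - Real.log ((L.h1 z i - L.h0 z i) / (e0 - s0)) := by
  unfold pg
  rw [if_neg (by omega)]

theorem pf_pos (K : KSys ι) (r m : ℕ) (H s0 e0 : ℝ) (p : ι) {j : ℕ} (hj : 1 ≤ j) :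
    pf K r m H s0 e0 p j = - Real.log (rd K r m H s0 e0 j p) := by
  unfold pf
  rw [max_eq_left hj]

end X5PRF

open X5PRF in
theorem I5_PRF : StPrf := by
  intro ι _ _ K r m H D s0 e0 L κ e kp l X2 X4 S E hr hF hP i hi hu hl
  have hO := hF.one
  have hL := hO.lab
  have hX2 := hO.lev.1
  have hX4 := hO.lev.2
  have hrR : (1 : ℝ) < r := by exact_mod_cast (by omega : 1 < r)
  have hr0 : (0 : ℝ) < r := by linarith
  have hw : 0 < Real.log r := Real.log_pos hrR
  have hlam : 0 < e0 - s0 := by linarith [hL.base]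
  have hlen : ∀ z, 1 ≤ z → z ≤ m → 0 < L.h1 z i - L.h0 z i := by
    intro z h1 h2
    have := (hL.hull z h1 h2 i hi).2.1
    linarith
  have hanti : ∀ j j', 1 ≤ j → j ≤ j' →
      rd K r m H s0 e0 j' (K.a i) ≤ rd K r m H s0 e0 j (K.a i) := by
    intro j j' h1 h2
    exact rad_anti K _ s0 e0 (by omega) (hP.bdd j h1) h2
  refine
    { w_pos := hw
      fmono := ?_
      gmono := ?_
      low := ?_
      grow := ?_
      gap := ?_
      hu := ?_
      hl := ?_ }
  · intro j j' h1 h2 h3
    rw [pf_pos K r m H s0 e0 _ (by omega), pf_pos K r m H s0 e0 _ (by omega)]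
    have a1 := hP.pos j' (by omega) (by omega) i hi
    have a2 := hanti j j' (by omega) h2
    have := Real.log_le_log a1 a2
    linarith
  · intro z z' h1 h2 h3
    rw [pg_pos s0 e0 L i (by omega), pg_pos s0 e0 L i (by omega)]
    obtain ⟨d, rfl⟩ := Nat.exists_eq_add_of_le h2
    have a1 := hull_nest hL hi h1 d (by omega)
    have a2 := hlen (z + d) (by omega) h3
    have a3 : (L.h1 (z + d) i - L.h0 (z + d) i) / (e0 - s0) ≤
        (L.h1 z i - L.h0 z i) / (e0 - s0) := by
      gcongr
      · exact a1.2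
      · exact a1.1
    have := Real.log_le_log (by positivity) a3
    linarith
  · intro z h1 h2
    rw [pg_pos s0 e0 L i h1]
    have a1 := hL.short z h1 h2 i hi
    have a2 := hlen z h1 h2
    have a3 : (L.h1 z i - L.h0 z i) / (e0 - s0) * (r : ℝ) ^ (4 * z) ≤ r := by
      rw [div_mul_eq_mul_div, div_le_iff₀ hlam]
      exact a1
    have a4 := Real.log_le_log (by positivity) a3
    rw [Real.log_mul (by positivity) (by positivity), Real.log_pow] at a4
    push_cast at a4
    linarith
  · intro j h1 h2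
    rw [pf_pos K r m H s0 e0 _ (by omega), pf_pos K r m H s0 e0 _ (by omega)]
    have a1 := hF.grow j h1 (by omega) i hi
    have a2 := hanti (j + k6 kp l) (j + (k6 kp l + 1)) (by omega) (by omega)
    have a3 := hP.pos (j + (k6 kp l + 1)) (by omega) (by omega) i hi
    have a4 : (r : ℝ) ^ 2 * rd K r m H s0 e0 (j + (k6 kp l + 1)) (K.a i) ≤
        rd K r m H s0 e0 j (K.a i) := by
      refine le_trans ?_ a1
      gcongr
    have a5 := Real.log_le_log (by positivity) a4
    rw [Real.log_mul (by positivity) (by positivity), Real.log_pow] at a5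
    push_cast at a5
    linarith
  · intro v h1 h2
    obtain ⟨x, hx, h3⟩ := hO.gap v h1 h2
    exact ⟨x, by exact_mod_cast hx, h3⟩
  · intro x hx y h1 h2 h3 h4 h5
    have hxS : x ∈ S := by exact_mod_cast hx
    have hxI := Finset.mem_Icc.1 (hO.sub hxS)
    have hkt : kt e kp l = kb e kp l + 4 * k6 kp l + kp := rfl
    have a0 := hu x hxS y (by omega) h2 h3 h4 h5
    have hz : 1 ≤ 2 * (x - y) + kz e kp l := by omega
    rw [pf_pos K r m H s0 e0 _ (by omega), pf_pos K r m H s0 e0 _ (by omega),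
      pg_pos s0 e0 L i hz]
    have a1 : (L.h1 (2 * (x - y) + kz e kp l) i - L.h0 (2 * (x - y) + kz e kp l) i) *
        rd K r m H s0 e0 (4 * y + kb e kp l) (K.a i) ≤
        r * rd K r m H s0 e0 (4 * x - 1) (K.a i) * (e0 - s0) := by
      by_contra hc
      push Not at hc
      apply a0
      unfold huV
      rw [mem_filter]
      exact ⟨hi, hc⟩
    have p1 := hlen (2 * (x - y) + kz e kp l) hz (by omega)
    have p2 := hP.pos (4 * y + kb e kp l) (by omega) (by omega) i hi
    have p3 := hP.pos (4 * x - 1) (by omega) (by omega) i hi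
    have a2 : (L.h1 (2 * (x - y) + kz e kp l) i - L.h0 (2 * (x - y) + kz e kp l) i) /
        (e0 - s0) * rd K r m H s0 e0 (4 * y + kb e kp l) (K.a i) ≤
        r * rd K r m H s0 e0 (4 * x - 1) (K.a i) := by
      rw [div_mul_eq_mul_div, div_le_iff₀ hlam]
      exact a1
    have a3 := Real.log_le_log (by positivity) a2
    rw [Real.log_mul (by positivity) (by positivity), Real.log_mul (by positivity)
      (by positivity)] at a3
    linarith
  · intro x hx x' hx' y h1 h2 h3 h4 h5 h6 h7
    have hxS : x ∈ S := by exact_mod_cast hx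
    have hxS' : x' ∈ S := by exact_mod_cast hx'
    have hxI := Finset.mem_Icc.1 (hO.sub hxS)
    have hxI' := Finset.mem_Icc.1 (hO.sub hxS')
    have a0 := hl x hxS x' hxS' y (by omega) h2 h3 h4 h5 h6 (by unfold zl; exact h7)
    have hzl : zl e kp l x x' y = 2 * (x - y) - (4 * (x - x') + (k8 e kp l + 5)) := rfl
    rw [← hzl] at h7 ⊢
    have hz : 1 ≤ zl e kp l x x' y := by omega
    rw [pf_pos K r m H s0 e0 _ (by omega), pf_pos K r m H s0 e0 _ (by omega),
      pg_pos s0 e0 L i hz]
    have a1 : rd K r m H s0 e0 (4 * x - 1) (K.a i) * (e0 - s0) ≤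
        r * (L.h1 (zl e kp l x x' y) i - L.h0 (zl e kp l x x' y) i) *
          rd K r m H s0 e0 (4 * y - 1) (K.a i) := by
      by_contra hc
      push Not at hc
      apply a0
      unfold hlV
      rw [mem_filter]
      exact ⟨hi, hc⟩
    have p1 := hlen (zl e kp l x x' y) hz (by omega)
    have p2 := hP.pos (4 * y - 1) (by omega) (by omega) i hi
    have p3 := hP.pos (4 * x - 1) (by omega) (by omega) i hi
    have a2 : rd K r m H s0 e0 (4 * x - 1) (K.a i) ≤
        r * ((L.h1 (zl e kp l x x' y) i - L.h0 (zl e kp l x x' y) i) / (e0 - s0)) *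
          rd K r m H s0 e0 (4 * y - 1) (K.a i) := by
      rw [mul_div_assoc', div_mul_eq_mul_div, le_div_iff₀ hlam]
      exact a1
    have a3 := Real.log_le_log (by positivity) a2
    rw [Real.log_mul (by positivity) (by positivity), Real.log_mul (by positivity)
      (by positivity)] at a3
    linarith

end Pool.Agent.Work.MP_e17eac_co.B5
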