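import Pool.Agent.Work.MP_e17eac_co.B5.St5

/-!
# Arbitrary sets, block B5, item RB: the lines of `unl` are close on the hull of level `z`
-/

set_option autoImplicit false

namespace Pool.Agent.Work.MP_e17eac_co.B5

open Finset
open Pool.Agent.Work.MP_e17eac_co.DH
open Pool.Agent.Work.MP_e17eac_co.B1
open Pool.Agent.Work.MP_e17eac_co.BB

namespace X5RB

variable {ι : Type} [Fintype ι] [DecidableEq ι]

/-- The hulls are nested. -/
theorem nest (K : KSys ι) (r m : ℕ) (D s0 e0 : ℝ) (L : Lab) (E : Finset ℕ)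
    (h : LabOK K r m D s0 e0 L E) (z : ℕ) (hz : 1 ≤ z) : ∀ x, z ≤ x → x ≤ m → ∀ i ∈ E,
    L.h0 z i ≤ L.h0 x i ∧ L.h1 x i ≤ L.h1 z i := by
  intro x
  induction x with
  | zero =>
    intro h1 h2 i hi
    have : z = 0 := by omega
    subst this
    exact ⟨le_rfl, le_rfl⟩
  | succ x ih =>
    intro h1 h2 i hi
    rcases Nat.lt_or_ge x z with h3 | h3
    · have : z = x + 1 := by omega
      subst this
      exact ⟨le_rfl, le_rfl⟩
    · obtain ⟨h4, h5⟩ := ih h3 (by omega) i hi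
      obtain ⟨h6, h7⟩ := h.nest x (by omega) h2 i hi
      exact ⟨h4.trans h6, h7.trans h5⟩

/-- The final estimate. -/
theorem arith {D R Ry A d w t u a b e : ℝ} (hD : 2 ≤ D) (hR : 0 ≤ R) (he : 0 < e)
    (hd0 : 0 ≤ d) (hA : A ≤ D * R) (hd : d ≤ Ry) (hw : w = b - a) (hat : a ≤ t) (htb : t ≤ b)
    (hau : a ≤ u) (hub : u ≤ b) (hhyp : w * Ry ≤ R * e) :
    A + 2 * d * (|t - u| / e) ≤ 2 * D * R := by
  have h1 : |t - u| ≤ w := by
    rw [abs_le]
    constructor <;> linarith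
  have h2 : 0 ≤ |t - u| := abs_nonneg _
  have h3 : d * |t - u| ≤ R * e := by
    calc d * |t - u| ≤ Ry * w := mul_le_mul hd h1 h2 (hd0.trans hd)
      _ = w * Ry := by ring
      _ ≤ R * e := hhyp
  have h4 : 2 * d * (|t - u| / e) ≤ 2 * R := by
    have h5 : 2 * d * (|t - u| / e) = 2 * (d * |t - u|) / e := by ring
    rw [h5, div_le_iff₀ he]
    linarith
  have h6 : 2 * R ≤ D * R := mul_le_mul_of_nonneg_right hD hR
  linarith

end X5RB

open X5RB in
theorem I5_RB (hCell : StCell) : StRB := by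
  intro ι _ _ K r m H D s0 e0 L κ e kp l X2 X4 S E hD hr hO x y z hx1 hx2 hy1 hy2 hz1 hzx i hi
    hyp s hs
  obtain ⟨hl1, hl2⟩ := hO.lev
  have hxm : x ≤ m := by omega
  have hx : 1 ≤ x := by omega
  have hzm : z ≤ m := by omega
  unfold unl at hs
  rw [mem_image] at hs
  obtain ⟨i', hi', rfl⟩ := hs
  rw [mem_filter] at hi'
  obtain ⟨hi'E, hlab, hcls⟩ := hi'
  obtain ⟨hc1, -, -, -⟩ := hO.lab.leq x hx hxm i' hi'E i hi hlab
  have hcz : cell K r z i' = cell K r z i := by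
    obtain ⟨-, -, h3, -⟩ := hCell ι K r x hr
    rw [h3 z hzx i', h3 z hzx i, hc1]
  have hbase : s0 < e0 := hO.lab.base
  have hR : 0 ≤ rd K r m H s0 e0 (4 * x - 1) (K.a i) := rad_nonneg _ _ _ _ _ _ _
  have hup : L.del x i ≤ rd K r m H s0 e0 (4 * x - 1) (K.a i) := hO.up x hx1 hx2 i hi
  have hcon := (hO.lab.con x hx hxm i hi i' hi'E hlab.symm).1
  have hA : |K.ht (K.a i') (L.h0 x i) - K.ht (K.a i) (L.h0 x i)| ≤
      D * rd K r m H s0 e0 (4 * x - 1) (K.a i) := by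
    rw [abs_sub_comm]
    exact hcon.trans (mul_le_mul_of_nonneg_left hup (by linarith))
  have hdm : dist0 K s0 e0 (K.a i') (K.a i) ≤ r * rd K r m H s0 e0 (4 * y - 1) (K.a i) := by
    rw [dist0_comm]
    exact hO.dm y hy1 hy2 i hi i' hi'E hcls.symm
  have hd0 : 0 ≤ dist0 K s0 e0 (K.a i') (K.a i) := dist0_nonneg _ _ _ _ _
  obtain ⟨hn0, hn1⟩ := nest K r m D s0 e0 L E hO.lab z hz1 x hzx hxm i hi
  obtain ⟨-, hlt, -, -, -⟩ := hO.lab.hull x hx hxm i hi
  have hlt' : L.h0 z i ≤ L.h1 z i := by linarith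
  have hhyp : (L.h1 z i - L.h0 z i) * (r * rd K r m H s0 e0 (4 * y - 1) (K.a i)) ≤
      rd K r m H s0 e0 (4 * x - 1) (K.a i) * (e0 - s0) := by
    have e1 : (L.h1 z i - L.h0 z i) * (r * rd K r m H s0 e0 (4 * y - 1) (K.a i)) =
      r * (L.h1 z i - L.h0 z i) * rd K r m H s0 e0 (4 * y - 1) (K.a i) := by ring
    rw [e1]
    exact hyp
  refine ⟨?_, ?_, ?_⟩
  · have := (hO.hyg i' hi'E).rel false z hzm
    rw [hcz] at this
    exact this
  · exact (abs_ht_shift K hbase (K.a i') (K.a i) (L.h0 x i) (L.h0 z i)).trans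
      (arith hD hR (by linarith) hd0 hA hdm rfl le_rfl hlt' hn0 (by linarith) hhyp)
  · exact (abs_ht_shift K hbase (K.a i') (K.a i) (L.h0 x i) (L.h1 z i)).trans
      (arith hD hR (by linarith) hd0 hA hdm rfl hlt' le_rfl hn0 (by linarith) hhyp)

end Pool.Agent.Work.MP_e17eac_co.B5
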