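import Pool.Agent.Work.MP_e17eac_co.B5.St5

/-!
# Arbitrary sets, block B-5, item RBV: close lines are visited
-/

set_option autoImplicit false

namespace Pool.Agent.Work.MP_e17eac_co.B5

open Finset
open Pool.Agent.Work.MP_e17eac_co.DH
open Pool.Agent.Work.MP_e17eac_co.B1
open Pool.Agent.Work.MP_e17eac_co.BB

namespace X5RBV

variable {ι : Type} [Fintype ι] [DecidableEq ι]

theorem nest_chain {K : KSys ι} {r m : ℕ} {D s0 e0 : ℝ} {L : Lab} {E : Finset ℕ}
    (hL : LabOK K r m D s0 e0 L E) {i : ℕ} (hi : i ∈ E) {z : ℕ} (hz : 1 ≤ z) :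
    ∀ k : ℕ, z + k ≤ m → L.h0 z i ≤ L.h0 (z + k) i ∧ L.h1 (z + k) i ≤ L.h1 z i := by
  intro k
  induction k with
  | zero => intro _; exact ⟨le_rfl, le_rfl⟩
  | succ k ih =>
    intro hk
    have h1 := ih (by omega)
    have h2 := hL.nest (z + k) (by omega) (by omega) i hi
    exact ⟨h1.1.trans h2.1, h2.2.trans h1.2⟩

end X5RBV

/-- **RBV**: close lines are visited. -/
theorem I5_RBV : StRBvis := by
  intro ι _ _ K r m H D s0 e0 L κ e kp l X2 X4 S E hD hDr hF hP x z hx x' hx' hxx hz hzx i hi s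
    ha hb
  have hO := hF.one
  have hL := hO.lab
  have hS := Finset.mem_Icc.1 (hO.sub hx')
  have hlev := hO.lev
  have hx'm : x' ≤ m := by omega
  obtain ⟨n1, n2⟩ := X5RBV.nest_chain hL hi hz (x' - z) (by omega)
  have ez : z + (x' - z) = x' := by omega
  rw [ez] at n1 n2
  obtain ⟨_, q2, _, _, _⟩ := hL.hull x' (by omega) hx'm i hi
  have hpos := hP.pos (4 * x - 1) (by omega) (by omega) i hi
  have hr0 : (0 : ℝ) < r := by linarith
  have hr1 : 1 ≤ r := by
    have : (1 : ℝ) < r := by linarith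
    exact_mod_cast this.le
  have g1 := hF.grow (4 * x' + kp) (by omega) (by omega) i hi
  have g2 : rd K r m H s0 e0 (4 * x - 1) (K.a i) ≤
      rd K r m H s0 e0 (4 * x' + kp + k6 kp l) (K.a i) :=
    rad_anti K (PS K r m H) s0 e0 hr1 (hP.bdd _ (by omega)) (by omega)
  have g3 : rd K r m H s0 e0 (4 * x' + kp) (K.a i) ≤ r * L.del x' i := hO.low x' hx' i hi
  have g4 : (r : ℝ) ^ 2 * rd K r m H s0 e0 (4 * x - 1) (K.a i) ≤ r * L.del x' i :=
    (mul_le_mul_of_nonneg_left g2 (by positivity)).trans (g1.trans g3)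
  have g5 : r * rd K r m H s0 e0 (4 * x - 1) (K.a i) ≤ L.del x' i := by
    have : (r : ℝ) * (r * rd K r m H s0 e0 (4 * x - 1) (K.a i)) ≤ r * L.del x' i := by
      calc (r : ℝ) * (r * rd K r m H s0 e0 (4 * x - 1) (K.a i)) =
          (r : ℝ) ^ 2 * rd K r m H s0 e0 (4 * x - 1) (K.a i) := by ring
        _ ≤ _ := g4
    exact le_of_mul_le_mul_left this hr0
  have g6 : 2 * D * rd K r m H s0 e0 (4 * x - 1) (K.a i) < L.del x' i :=
    (mul_lt_mul_of_pos_right hDr hpos).trans_le g5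
  apply hL.clo x' (by omega) hx'm i hi s
  · exact (abs_ht_between K s (K.a i) ha hb n1 (q2.le.trans n2)).trans_lt g6
  · exact (abs_ht_between K s (K.a i) ha hb (n1.trans q2.le) n2).trans_lt g6

end Pool.Agent.Work.MP_e17eac_co.B5
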