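import Pool.Agent.Work.MP_e17eac_co.B5.St5

/-!
# B5, THICK: few thin edges
-/

set_option autoImplicit false

namespace Pool.Agent.Work.MP_e17eac_co.B5

open Finset
open Pool.Agent.Work.MP_e17eac_co.DH
open Pool.Agent.Work.MP_e17eac_co.B1
open Pool.Agent.Work.MP_e17eac_co.BB

namespace X5THICK

theorem big_one {ι : Type} [Fintype ι] [DecidableEq ι] {K : KSys ι} {r m : ℕ} {H D : ℝ} {C : ℕ}
    (hC : 1 ≤ C) (h : Big K r m H D C) : Big K r m H D 1 := by
  have hD1 : (1 : ℝ) ≤ D := by linarith [h.D2]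
  have hr1 : (1 : ℝ) ≤ (r : ℝ) := by exact_mod_cast le_trans (by norm_num) h.std.two
  refine ⟨h.std, h.gp, h.HD, h.D2, h.log, h.ub, ?_, ?_⟩
  · exact (pow_le_pow_right₀ hD1 hC).trans h.Dr
  · exact (pow_le_pow_right₀ hr1 (Nat.mul_le_mul_right _ hC)).trans h.rn

/-- Fibre count: pairs (label, line) over pairs (label, class). -/
theorem fibre {ι : Type} [Fintype ι] [DecidableEq ι] (K : KSys ι) (r : ℕ) (L : Lab)
    (κ : ℕ → ι → ℕ) (e kp l : ℕ) (E : Finset ℕ) (x y : ℕ) :
    (((thin K r L κ e kp l E x y).image (fun i => (L.lab x i, K.a i))).card) *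
      r ^ (2 * x + 2 * y + k8 e kp l + 1) ≤
    (((thin K r L κ e kp l E x y).image (fun i => (L.lab x i, κ y (K.a i)))).card) *
      Fintype.card ι := by
  classical
  set F := thin K r L κ e kp l E x y with hF
  set A := F.image (fun i => (L.lab x i, K.a i)) with hA
  set B := F.image (fun i => (L.lab x i, κ y (K.a i))) with hB
  have hmaps : ∀ w ∈ A, (fun w : ℕ × ι => (w.1, κ y w.2)) w ∈ B := by
    intro w hw
    rw [hA, mem_image] at hw
    obtain ⟨i, hi, rfl⟩ := hw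
    rw [hB]
    exact mem_image.mpr ⟨i, hi, rfl⟩
  rw [card_eq_sum_card_fiberwise (f := fun w : ℕ × ι => (w.1, κ y w.2)) (t := B)
    (fun w hw => hmaps w hw), sum_mul]
  refine le_trans (sum_le_sum (g := fun _ => Fintype.card ι) ?_) (le_of_eq (by
    rw [sum_const, smul_eq_mul]))
  intro v hv
  rw [hB, mem_image] at hv
  obtain ⟨i, hi, rfl⟩ := hv
  have hi2 := hi
  rw [hF] at hi2
  unfold thin at hi2
  rw [mem_filter] at hi2
  refine le_trans (Nat.mul_le_mul_right _ ?_) hi2.2.le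
  have hsub : (A.filter (fun w : ℕ × ι => (w.1, κ y w.2) = (L.lab x i, κ y (K.a i)))) ⊆
      (unl K L κ E x y i).image (fun p => (L.lab x i, p)) := by
    intro w hw
    rw [mem_filter, hA, mem_image] at hw
    obtain ⟨⟨j, hj, rfl⟩, hw2⟩ := hw
    have h1 : L.lab x j = L.lab x i := (Prod.mk.inj hw2).1
    have h2 : κ y (K.a j) = κ y (K.a i) := (Prod.mk.inj hw2).2
    refine mem_image.mpr ⟨K.a j, ?_, by rw [h1]⟩
    unfold unl
    refine mem_image_of_mem _ (mem_filter.mpr ⟨?_, h1, h2⟩)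
    rw [hF] at hj
    unfold thin at hj
    exact (mem_filter.mp hj).1
  exact (card_le_card hsub).trans card_image_le

end X5THICK

open X5THICK in
theorem I5_THICK (hPairs : StPairs) (hLab : StLabCnt) : StThick := by
  classical
  intro m e kp l k
  refine ⟨3 * k + 20, ?_⟩
  intro ι _ _ K r H D s0 e0 L κ X2 X4 S E hBig hFlw x hxS y hy1 hyx hxy hxt
  by_contra hcon
  rw [not_le] at hcon
  have hD2 : (2 : ℝ) ≤ D := hBig.D2
  have hD0 : (0 : ℝ) < D := by linarith
  have hH0 : (0 : ℝ) ≤ H := by linarith [hBig.std.one]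
  have hr2 : 2 ≤ r := hBig.std.two
  have hr0 : (0 : ℝ) < (r : ℝ) := by
    have : (2 : ℝ) ≤ (r : ℝ) := by exact_mod_cast hr2
    linarith
  have hn : (0 : ℝ) < Fintype.card ι := lt_of_lt_of_le (by positivity) hBig.rn
  have hxm : x ≤ m := by
    have := hFlw.one.lev.2
    omega
  set F := thin K r L κ e kp l E x y with hF
  have hFE : F ⊆ E := by
    rw [hF]
    exact filter_subset _ _
  have h1 := hPairs ι K r m H D (big_one (by omega) hBig) k x hxm F
    (fun i hi => hFlw.one.hyg i (hFE hi)) hcon.le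
  obtain ⟨hl1, -, hl3, -⟩ := hLab ι K r m H D s0 e0 L E hD0.le hH0 (by omega) hFlw.one.lab
    hFlw.one.hyg x (by omega) hxm F hFE
  have h3 := hl3 (κ y)
  have hflux := hFlw.flux x hxS y hy1 hyx hxy hxt
  have h4 : ((F.image (fun i => (cell K r x i, κ y (K.a i)))).card : ℝ) ≤
      (r : ℝ) ^ (3 * x + 2 * y + k8 e kp l) := by
    exact_mod_cast (card_le_card (image_subset_image hFE)).trans hflux
  have h5 : ((F.image (fun i => (L.lab x i, K.a i))).card : ℝ) *
      (r : ℝ) ^ (2 * x + 2 * y + k8 e kp l + 1) ≤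
      ((F.image (fun i => (L.lab x i, κ y (K.a i)))).card : ℝ) * Fintype.card ι := by
    exact_mod_cast fibre K r L κ e kp l E x y
  rw [← hl1] at h1
  have hP : (0 : ℝ) < (r : ℝ) ^ (2 * x + 2 * y + k8 e kp l + 1) := by positivity
  have hchain : (Fintype.card ι * (r : ℝ) ^ x) * (r : ℝ) ^ (2 * x + 2 * y + k8 e kp l + 1) ≤
      D ^ (3 * k + 18) * (D * (r : ℝ) ^ (3 * x + 2 * y + k8 e kp l) * Fintype.card ι) := by
    calc (Fintype.card ι * (r : ℝ) ^ x) * (r : ℝ) ^ (2 * x + 2 * y + k8 e kp l + 1)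
        ≤ (D ^ (3 * k + 18) * ((F.image (fun i => (L.lab x i, K.a i))).card : ℝ)) *
          (r : ℝ) ^ (2 * x + 2 * y + k8 e kp l + 1) := mul_le_mul_of_nonneg_right h1 hP.le
      _ = D ^ (3 * k + 18) * (((F.image (fun i => (L.lab x i, K.a i))).card : ℝ) *
          (r : ℝ) ^ (2 * x + 2 * y + k8 e kp l + 1)) := by ring
      _ ≤ D ^ (3 * k + 18) * (((F.image (fun i => (L.lab x i, κ y (K.a i)))).card : ℝ) *
          Fintype.card ι) := mul_le_mul_of_nonneg_left h5 (by positivity)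
      _ ≤ D ^ (3 * k + 18) * ((D * (r : ℝ) ^ (3 * x + 2 * y + k8 e kp l)) *
          Fintype.card ι) := by
          refine mul_le_mul_of_nonneg_left (mul_le_mul_of_nonneg_right ?_ hn.le) (by positivity)
          exact h3.trans (mul_le_mul_of_nonneg_left h4 hD0.le)
  have hfin : (r : ℝ) * ((r : ℝ) ^ (3 * x + 2 * y + k8 e kp l) * Fintype.card ι) ≤
      D ^ (3 * k + 19) * ((r : ℝ) ^ (3 * x + 2 * y + k8 e kp l) * Fintype.card ι) := by
    have e1 : (Fintype.card ι * (r : ℝ) ^ x) * (r : ℝ) ^ (2 * x + 2 * y + k8 e kp l + 1) =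
        (r : ℝ) * ((r : ℝ) ^ (3 * x + 2 * y + k8 e kp l) * Fintype.card ι) := by
      have e2 : (r : ℝ) ^ x * (r : ℝ) ^ (2 * x + 2 * y + k8 e kp l + 1) =
          (r : ℝ) * (r : ℝ) ^ (3 * x + 2 * y + k8 e kp l) := by
        rw [← pow_add, ← pow_succ']
        congr 1
        ring
      rw [mul_assoc, e2]
      ring
    have e3 : D ^ (3 * k + 18) * (D * (r : ℝ) ^ (3 * x + 2 * y + k8 e kp l) *
        Fintype.card ι) = D ^ (3 * k + 19) * ((r : ℝ) ^ (3 * x + 2 * y + k8 e kp l) *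
        Fintype.card ι) := by
      rw [show 3 * k + 19 = (3 * k + 18) + 1 by ring, pow_succ]
      ring
    rw [e1, e3] at hchain
    exact hchain
  have hrD : (r : ℝ) ≤ D ^ (3 * k + 19) := le_of_mul_le_mul_right hfin (by positivity)
  have hDr := hBig.Dr
  have hlt : D ^ (3 * k + 19) < D ^ (3 * k + 20) :=
    pow_lt_pow_right₀ (by linarith) (by omega)
  linarith

end Pool.Agent.Work.MP_e17eac_co.B5
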