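import Pool.Agent.Work.MP_e17eac_co.B5.St5

namespace Pool.Agent.Work.MP_e17eac_co.B5

open Finset
open Pool.Agent.Work.MP_e17eac_co.DH

namespace X5TRI

lemma far {ι : Type} [DecidableEq ι] (PL : Finset (ℕ × ι)) (κ : ι → ℕ)
    (cl : ι → ι → Prop) [∀ p q, Decidable (cl p q)] (B M n : ℝ) (hB : 0 ≤ B) (hM : 0 ≤ M)
    (h2 : ∀ p q, ¬ cl p q → (((PL.filter (fun w => w.2 = p)).image Prod.fst ∩
      (PL.filter (fun w => w.2 = q)).image Prod.fst).card : ℝ) ≤ B)
    (h3 : ∀ p ∈ PL.image Prod.snd,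
      (((PL.image Prod.snd).filter (fun q => κ q = κ p)).card : ℝ) ≤ M)
    (h4 : ((PL.image Prod.snd).card : ℝ) ≤ n) :
    ∑ w ∈ PL, ((PL.filter (fun w' => (w'.1 = w.1 ∧ κ w'.2 = κ w.2) ∧ ¬ cl w.2 w'.2)).card : ℝ) ≤
      n * (M * B) := by
  classical
  set T : Finset ((_ : ℕ × ι) × (ℕ × ι)) :=
    PL.sigma (fun w => PL.filter (fun w' => (w'.1 = w.1 ∧ κ w'.2 = κ w.2) ∧ ¬ cl w.2 w'.2)) with hT
  set P := PL.image Prod.snd with hP
  set Pr : Finset ((_ : ι) × ι) := P.sigma (fun p => P.filter (fun q => κ q = κ p)) with hPr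
  have e1 : ∑ w ∈ PL, ((PL.filter (fun w' => (w'.1 = w.1 ∧ κ w'.2 = κ w.2) ∧
      ¬ cl w.2 w'.2)).card : ℝ) = (T.card : ℝ) := by
    rw [hT, Finset.card_sigma]
    push_cast
    rfl
  rw [e1]
  let g : ((_ : ℕ × ι) × (ℕ × ι)) → ((_ : ι) × ι) := fun z => ⟨z.1.2, z.2.2⟩
  have hg : ∀ z ∈ T, g z ∈ Pr := by
    intro z hz
    rw [hT, mem_sigma, mem_filter] at hz
    rw [hPr, mem_sigma, mem_filter]
    exact ⟨mem_image_of_mem _ hz.1, mem_image_of_mem _ hz.2.1, hz.2.2.1.2⟩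
  have e2 := Finset.card_eq_sum_card_fiberwise (f := g) (s := T) (t := Pr) hg
  have e3 : ∀ y ∈ Pr, ((T.filter (fun z => g z = y)).card : ℝ) ≤ B := by
    intro y _
    by_cases hy : cl y.1 y.2
    · have : T.filter (fun z => g z = y) = ∅ := by
        rw [Finset.filter_eq_empty_iff]
        intro z hz hzy
        rw [hT, mem_sigma, mem_filter] at hz
        subst hzy
        exact hz.2.2.2 hy
      rw [this]; simpa using hB
    · refine le_trans ?_ (h2 y.1 y.2 hy)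
      norm_cast
      apply Finset.card_le_card_of_injOn (fun z => z.1.1)
      · intro z hz
        have hz' := Finset.mem_filter.1 (Finset.mem_coe.1 hz)
        obtain ⟨hz1, hz2⟩ := hz'
        rw [hT, mem_sigma, mem_filter] at hz1
        subst hz2
        rw [Finset.mem_coe, mem_inter, mem_image, mem_image]
        refine ⟨⟨z.1, by rw [mem_filter]; exact ⟨hz1.1, rfl⟩, rfl⟩,
          ⟨z.2, by rw [mem_filter]; exact ⟨hz1.2.1, rfl⟩, hz1.2.2.1.1⟩⟩
      · intro z hz z' hz' hzz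
        obtain ⟨a1, a2⟩ := Finset.mem_filter.1 (Finset.mem_coe.1 hz)
        obtain ⟨b1, b2⟩ := Finset.mem_filter.1 (Finset.mem_coe.1 hz')
        rw [hT, mem_sigma, mem_filter] at a1 b1
        have c1 : g z = g z' := a2.trans b2.symm
        have c2 : z.1.2 = z'.1.2 := congrArg (fun t : ((_ : ι) × ι) => t.1) c1
        have c3 : z.2.2 = z'.2.2 := congrArg (fun t : ((_ : ι) × ι) => t.2) c1
        have c4 : z.1 = z'.1 := Prod.ext hzz c2
        have c5 : z.2 = z'.2 := Prod.ext (by rw [a1.2.2.1.1, b1.2.2.1.1, c4]) c3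
        exact Sigma.ext c4 (heq_of_eq c5)
  have e4 : (T.card : ℝ) ≤ Pr.card * B := by
    rw [e2]
    push_cast
    calc ∑ b ∈ Pr, ((T.filter (fun z => g z = b)).card : ℝ) ≤ ∑ _b ∈ Pr, B :=
          Finset.sum_le_sum e3
      _ = Pr.card * B := by rw [Finset.sum_const, nsmul_eq_mul]
  have e5 : (Pr.card : ℝ) ≤ n * M := by
    rw [hPr, Finset.card_sigma]
    push_cast
    calc ∑ p ∈ P, ((P.filter (fun q => κ q = κ p)).card : ℝ) ≤ ∑ _p ∈ P, M :=
          Finset.sum_le_sum h3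
      _ = P.card * M := by rw [Finset.sum_const, nsmul_eq_mul]
      _ ≤ n * M := mul_le_mul_of_nonneg_right h4 hM
  calc (T.card : ℝ) ≤ Pr.card * B := e4
    _ ≤ (n * M) * B := mul_le_mul_of_nonneg_right e5 hB
    _ = n * (M * B) := by ring

end X5TRI

theorem I5_TRI : StTri := by
  intro ι _ PL κ cl _ A B M n hA hB hM h1 h2 h3 h4
  classical
  set F : ℕ × ι → ℕ × ℕ := fun w => (w.1, κ w.2) with hF
  have e1 : (PL.card : ℝ) = ∑ b ∈ PL.image F, ((PL.filter (fun w => F w = b)).card : ℝ) := by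
    have := Finset.card_eq_sum_card_image F PL
    rw [this]
    push_cast
    rfl
  have e2 : (PL.card : ℝ) ^ 2 ≤ (PL.image F).card *
      ∑ b ∈ PL.image F, ((PL.filter (fun w => F w = b)).card : ℝ) ^ 2 := by
    rw [e1]
    exact sq_sum_le_card_mul_sum_sq
  have e3 : ∑ b ∈ PL.image F, ((PL.filter (fun w => F w = b)).card : ℝ) ^ 2 =
      ∑ w ∈ PL, ((PL.filter (fun w' => F w' = F w)).card : ℝ) := by
    rw [Finset.sum_comp (fun b => ((PL.filter (fun w' => F w' = b)).card : ℝ)) F]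
    apply Finset.sum_congr rfl
    intro b _
    rw [nsmul_eq_mul, sq]
  have e4 : ∀ w ∈ PL, ((PL.filter (fun w' => F w' = F w)).card : ℝ) ≤
      A + ((PL.filter (fun w' => (w'.1 = w.1 ∧ κ w'.2 = κ w.2) ∧ ¬ cl w.2 w'.2)).card : ℝ) := by
    intro w hw
    have hfe : PL.filter (fun w' => F w' = F w) =
        PL.filter (fun w' => w'.1 = w.1 ∧ κ w'.2 = κ w.2) := by
      apply Finset.filter_congr
      intro w' _
      simp [hF, Prod.ext_iff]
    rw [hfe]
    have h5 := Finset.card_filter_add_card_filter_not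
      (s := PL.filter (fun w' => w'.1 = w.1 ∧ κ w'.2 = κ w.2)) (fun w' => cl w.2 w'.2)
    rw [Finset.filter_filter, Finset.filter_filter] at h5
    have h6 := h1 w hw
    have h7 : PL.filter (fun w' => w'.1 = w.1 ∧ κ w'.2 = κ w.2 ∧ cl w.2 w'.2) =
        PL.filter (fun w' => (w'.1 = w.1 ∧ κ w'.2 = κ w.2) ∧ cl w.2 w'.2) := by
      apply Finset.filter_congr
      intro w' _
      tauto
    rw [h7] at h6
    rw [← h5]
    push_cast
    linarith
  have e5 := X5TRI.far PL κ cl B M n hB hM h2 h3 h4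
  have e6 : ∑ w ∈ PL, ((PL.filter (fun w' => F w' = F w)).card : ℝ) ≤
      PL.card * A + n * (M * B) := by
    calc ∑ w ∈ PL, ((PL.filter (fun w' => F w' = F w)).card : ℝ)
        ≤ ∑ w ∈ PL, (A + ((PL.filter (fun w' => (w'.1 = w.1 ∧ κ w'.2 = κ w.2) ∧
          ¬ cl w.2 w'.2)).card : ℝ)) := Finset.sum_le_sum e4
      _ = PL.card * A + ∑ w ∈ PL, ((PL.filter (fun w' => (w'.1 = w.1 ∧ κ w'.2 = κ w.2) ∧
          ¬ cl w.2 w'.2)).card : ℝ) := by
          rw [Finset.sum_add_distrib, Finset.sum_const, nsmul_eq_mul]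
      _ ≤ _ := by linarith
  calc (PL.card : ℝ) ^ 2 ≤ (PL.image F).card *
      ∑ b ∈ PL.image F, ((PL.filter (fun w => F w = b)).card : ℝ) ^ 2 := e2
    _ ≤ (PL.image F).card * (PL.card * A + n * (M * B)) := by
      rw [e3]
      exact mul_le_mul_of_nonneg_left e6 (Nat.cast_nonneg _)

end Pool.Agent.Work.MP_e17eac_co.B5
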