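import Pool.Agent.Work.MP_e17eac_co.B5.P5_SUB
import Pool.Agent.Work.MP_e17eac_co.B5.P5_POS
import Pool.Agent.Work.MP_e17eac_co.B5.P5_PAIRS
import Pool.Agent.Work.MP_e17eac_co.B5.P5_LAB
import Pool.Agent.Work.MP_e17eac_co.B5.P5_TRI
import Pool.Agent.Work.MP_e17eac_co.B5.P5_COMMON
import Pool.Agent.Work.MP_e17eac_co.B5.P5_CLS
import Pool.Agent.Work.MP_e17eac_co.B5.P5_HU
import Pool.Agent.Work.MP_e17eac_co.B5.P5_THICK
import Pool.Agent.Work.MP_e17eac_co.B5.P5_PRA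
import Pool.Agent.Work.MP_e17eac_co.B5.P5_PRB
import Pool.Agent.Work.MP_e17eac_co.B5.P5_RB
import Pool.Agent.Work.MP_e17eac_co.B5.P5_RBV
import Pool.Agent.Work.MP_e17eac_co.B5.P5_CORE
import Pool.Agent.Work.MP_e17eac_co.B5.P5_HL
import Pool.Agent.Work.MP_e17eac_co.B5.P5_PRF
import Pool.Agent.Work.MP_e17eac_co.B5.P5_B5

/-!
# Arbitrary sets: block B-5 closed
-/

set_option autoImplicit false

namespace Pool.Agent.Work.MP_e17eac_co.B5

open Pool.Agent.Work.MP_e17eac_co.B1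

/-- **Block B-5** from the statements of B-1, `StRad`, `StOneSub` and `StOneBig`. -/
theorem A_B5 (hSub : BB.StOneSub) (hBig : BB.StOneBig) (hRad : BB.StRad) (hCell : StCell)
    (hFP : StFP) (hAV : StAV) (hP2 : StP2) : BB.StB5 := by
  have hPairs := I5_PAIRS hFP
  have hLab := I5_LAB hCell
  exact I5_B5 (I5_FSUB hSub) (I5_POS hBig hRad)
    (I5_HU hPairs hLab I5_TRI (I5_COMMON hLab) I5_CLS) (I5_THICK hPairs hLab)
    (I5_HL (I5_PRA hCell) (I5_PRB hCell hFP) (I5_RB hCell) I5_RBV (I5_CORE hCell hAV hP2)) I5_PRF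

end Pool.Agent.Work.MP_e17eac_co.B5
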