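import Pool.Agent.Work.MP_e17eac_co.B5.St5

/-!
# Arbitrary sets, blueprint part B-5: few edges in light pairs (item PRA)
-/

namespace Pool.Agent.Work.MP_e17eac_co.B5

open Finset
open Pool.Agent.Work.MP_e17eac_co.DH
open Pool.Agent.Work.MP_e17eac_co.B1
open Pool.Agent.Work.MP_e17eac_co.BB

namespace X5PRA

variable {ι : Type} [Fintype ι] [DecidableEq ι]

theorem image_card (K : KSys ι) (r m : ℕ) (H : ℝ) (z : ℕ) (G : Finset ℕ)
    (hc : ∀ i, i < K.N → cell K r z i < r ^ (4 * z)) (hG : ∀ i ∈ G, Hyg K r m H i) :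
    (G.image (fun i => (K.a i, cell K r z i))).card ≤ ∑ p ∈ PS K r m H, W K r z p := by
  classical
  have hsub : G.image (fun i => (K.a i, cell K r z i)) ⊆ (PS K r m H).biUnion (fun p =>
      ((range (r ^ (4 * z))).filter (fun w => p ∈ vis K r z w)).image (fun w => (p, w))) := by
    intro b hb
    obtain ⟨i, hi, rfl⟩ := mem_image.1 hb
    have h := hG i hi
    refine mem_biUnion.2 ⟨K.a i, h.ps false, mem_image.2 ⟨cell K r z i, ?_, rfl⟩⟩
    refine mem_filter.2 ⟨mem_range.2 (hc i h.lt), ?_⟩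
    exact mem_union_left _ (mem_image.2 ⟨i, mem_filter.2 ⟨mem_range.2 h.lt, rfl⟩, rfl⟩)
  refine le_trans (card_le_card hsub) (le_trans card_biUnion_le ?_)
  exact sum_le_sum fun p _ => card_image_le

theorem sum_W (K : KSys ι) (r m : ℕ) (H : ℝ) (z : ℕ) (hz : z ≤ m) (hH : 0 ≤ H) :
    ((∑ p ∈ PS K r m H, W K r z p : ℕ) : ℝ) ≤ Fintype.card ι * (H * (r : ℝ) ^ z) := by
  classical
  push_cast
  have h1 : ∑ p ∈ PS K r m H, (W K r z p : ℝ) ≤ ∑ _p ∈ PS K r m H, H * (r : ℝ) ^ z :=
    sum_le_sum fun p hp => (mem_filter.1 hp).2 z hz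
  rw [sum_const, nsmul_eq_mul] at h1
  refine le_trans h1 (mul_le_mul_of_nonneg_right ?_ (by positivity))
  exact_mod_cast card_le_univ _

end X5PRA

open X5PRA

theorem I5_PRA (hCell : StCell) : StPruneA := by
  classical
  intro ι _ _ K r m H D hB k z hz F hF
  have hr : 1 ≤ r := le_trans (by norm_num) hB.std.two
  have hrR : (0 : ℝ) < (r : ℝ) := by exact_mod_cast hr
  have hD2 := hB.D2
  have hHD := hB.HD
  have hH1 := hB.std.one
  set G := F.filter (fun i => D ^ (k + 1) * (Fintype.card ι * (r : ℝ) ^ z) *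
    ((F.filter (fun j => K.a j = K.a i ∧ cell K r z j = cell K r z i)).card : ℝ) < K.N) with hGd
  rcases G.eq_empty_or_nonempty with h0 | ⟨i0, hi0⟩
  · rw [h0]
    simp
  have hn : 0 < (Fintype.card ι : ℝ) := by
    exact_mod_cast Fintype.card_pos_iff.2 ⟨K.a i0⟩
  have hq : 0 < (Fintype.card ι * (r : ℝ) ^ z) := by positivity
  have hDk : 0 < D ^ (k + 1) := by positivity
  have himg := image_card K r m H z G (fun i hi => (hCell ι K r z hr).1 i hi)
    (fun i hi => hF i (mem_filter.1 hi).1)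
  have hW := sum_W K r m H z hz (by linarith)
  have himgR : ((G.image (fun i => (K.a i, cell K r z i))).card : ℝ) ≤
      Fintype.card ι * (H * (r : ℝ) ^ z) := le_trans (by exact_mod_cast himg) hW
  have hsum : (G.card : ℝ) = ∑ b ∈ G.image (fun i => (K.a i, cell K r z i)),
      ((G.filter (fun i => (K.a i, cell K r z i) = b)).card : ℝ) := by
    exact_mod_cast card_eq_sum_card_image (fun i => (K.a i, cell K r z i)) G
  have hfib : ∀ b ∈ G.image (fun i => (K.a i, cell K r z i)),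
      D ^ (k + 1) * (Fintype.card ι * (r : ℝ) ^ z) *
        ((G.filter (fun i => (K.a i, cell K r z i) = b)).card : ℝ) ≤ K.N := by
    intro b hb
    obtain ⟨i, hi, rfl⟩ := mem_image.1 hb
    refine le_trans (mul_le_mul_of_nonneg_left ?_ (by positivity)) (mem_filter.1 hi).2.le
    have hsub : G.filter (fun j => (K.a j, cell K r z j) = (K.a i, cell K r z i)) ⊆
        F.filter (fun j => K.a j = K.a i ∧ cell K r z j = cell K r z i) := by
      intro j hj
      obtain ⟨hj1, hj2⟩ := mem_filter.1 hj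
      rw [Prod.mk.injEq] at hj2
      exact mem_filter.2 ⟨(mem_filter.1 hj1).1, hj2⟩
    exact_mod_cast card_le_card hsub
  have htot : D ^ (k + 1) * (Fintype.card ι * (r : ℝ) ^ z) * (G.card : ℝ) ≤
      (Fintype.card ι * (H * (r : ℝ) ^ z)) * K.N := by
    rw [hsum, mul_sum]
    refine le_trans (sum_le_sum hfib) ?_
    rw [sum_const, nsmul_eq_mul]
    exact mul_le_mul_of_nonneg_right himgR (Nat.cast_nonneg _)
  have h3 : (Fintype.card ι * (r : ℝ) ^ z) * (D ^ (k + 1) * (G.card : ℝ)) ≤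
      (Fintype.card ι * (r : ℝ) ^ z) * (H * K.N) := by
    calc _ = D ^ (k + 1) * (Fintype.card ι * (r : ℝ) ^ z) * (G.card : ℝ) := by ring
      _ ≤ _ := htot
      _ = _ := by ring
  have h4 : D ^ (k + 1) * (G.card : ℝ) ≤ H * K.N := le_of_mul_le_mul_left h3 hq
  have h5 : H * (K.N : ℝ) ≤ D * K.N := mul_le_mul_of_nonneg_right hHD (Nat.cast_nonneg _)
  have h6 : D * (D ^ k * (G.card : ℝ)) ≤ D * K.N := by
    calc _ = D ^ (k + 1) * (G.card : ℝ) := by ring
      _ ≤ _ := le_trans h4 h5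
  exact le_of_mul_le_mul_left h6 (by linarith)

end Pool.Agent.Work.MP_e17eac_co.B5
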