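import Pool.Agent.Work.MP_e17eac_co.B5.St5

/-!
# Arbitrary sets, B-5: monotonicity and inheritance
-/

set_option autoImplicit false

namespace Pool.Agent.Work.MP_e17eac_co.B5

open Finset
open Pool.Agent.Work.MP_e17eac_co.DH
open Pool.Agent.Work.MP_e17eac_co.B1
open Pool.Agent.Work.MP_e17eac_co.BB

theorem I5_MONO : StBigMono := by
  intro ι _ _ K r m H D C C1 C2 h h1 h2
  have hD1 : (1 : ℝ) ≤ D := le_trans (by norm_num) h.D2
  have hDD : D ≤ D ^ C1 := le_self_pow₀ hD1 (by omega)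
  have hC2 : C2 ≤ C := le_trans (Nat.le_mul_of_pos_left _ h1) h2
  have hr : (1 : ℝ) ≤ r := by
    have := h.std.two
    exact_mod_cast (by omega : 1 ≤ r)
  refine ⟨h.std, h.gp, h.HD.trans hDD, h.D2.trans hDD, h.log, h.ub, ?_, ?_⟩
  · rw [← pow_mul]
    exact (pow_le_pow_right₀ hD1 h2).trans h.Dr
  · exact (pow_le_pow_right₀ hr (Nat.mul_le_mul_right _ hC2)).trans h.rn

theorem I5_FSUB (hSub : BB.StOneSub) : StFlwSub := by
  intro ι _ _ K r m H D D' s0 e0 L κ e kp l X2 X4 S E E' hD hDD' h hE hN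
  refine ⟨hSub ι K r m H D D' s0 e0 L κ e kp l X2 X4 S E E' hD hDD' h.one hE hN, ?_, ?_, ?_⟩
  · intro j h1 h2 i hi
    exact h.grow j h1 h2 i (hE hi)
  · intro x hx y h1 h2 h3 h4
    exact (card_le_card (image_subset_image hE)).trans (h.flux x hx y h1 h2 h3 h4)
  · intro x h1 h2 j h3 h4 i hi
    refine le_trans ?_ (h.near x h1 h2 j h3 h4 i (hE hi))
    apply Nat.mul_le_mul_right
    apply Nat.pow_le_pow_left
    unfold BB.near
    apply card_le_card
    intro s hs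
    rw [mem_filter] at hs ⊢
    obtain ⟨h5, ⟨i', h6, h7, h8⟩, h9⟩ := hs
    exact ⟨image_subset_image hE h5, ⟨i', hE h6, h7, h8⟩, h9⟩

end Pool.Agent.Work.MP_e17eac_co.B5
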