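import Pool.Agent.Work.MP_e17eac_co.Bd.B21

/-!
# Arbitrary sets, blueprint part B-5 (note 2880): statements

Hull lengths (HU), (HL), thick edges, and the linear profile at every edge (`BB.StB5`).
-/

set_option autoImplicit false

namespace Pool.Agent.Work.MP_e17eac_co.B5

open Finset
open Pool.Agent.Work.MP_e17eac_co.DH
open Pool.Agent.Work.MP_e17eac_co.B1
open Pool.Agent.Work.MP_e17eac_co.BB

variable {ι : Type} [Fintype ι] [DecidableEq ι]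

/-! ### Definitions -/

/-- The mass radii are finite and positive. -/
structure Pos5 (K : KSys ι) (r m : ℕ) (H s0 e0 : ℝ) (E : Finset ℕ) : Prop where
  bdd : ∀ j, 1 ≤ j → (Fintype.card ι : ℝ) < (PS K r m H).card * (r : ℝ) ^ j
  pos : ∀ j, 1 ≤ j → j ≤ 4 * m → ∀ i ∈ E, 0 < rd K r m H s0 e0 j (K.a i)

/-- The edges violating (HU) at `x, y`. -/
noncomputable def huV (K : KSys ι) (r m : ℕ) (H s0 e0 : ℝ) (L : Lab) (e kp l : ℕ)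
    (E : Finset ℕ) (x y : ℕ) : Finset ℕ :=
  E.filter (fun i => r * rd K r m H s0 e0 (4 * x - 1) (K.a i) * (e0 - s0) <
    (L.h1 (2 * (x - y) + kz e kp l) i - L.h0 (2 * (x - y) + kz e kp l) i) *
      rd K r m H s0 e0 (4 * y + kb e kp l) (K.a i))

/-- The thin edges. -/
noncomputable def thin (K : KSys ι) (r : ℕ) (L : Lab) (κ : ℕ → ι → ℕ) (e kp l : ℕ)
    (E : Finset ℕ) (x y : ℕ) : Finset ℕ :=
  E.filter (fun i => (unl K L κ E x y i).card * r ^ (2 * x + 2 * y + k8 e kp l + 1) <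
    Fintype.card ι)

/-- The level `z` in (HL). -/
def zl (e kp l x x' y : ℕ) : ℕ := 2 * (x - y) - (4 * (x - x') + (k8 e kp l + 5))

/-- The edges violating (HL) at `x, x', y`. -/
noncomputable def hlV (K : KSys ι) (r m : ℕ) (H s0 e0 : ℝ) (L : Lab) (e kp l : ℕ)
    (E : Finset ℕ) (x x' y : ℕ) : Finset ℕ :=
  E.filter (fun i => r * (L.h1 (zl e kp l x x' y) i - L.h0 (zl e kp l x x' y) i) *
      rd K r m H s0 e0 (4 * y - 1) (K.a i) <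
    rd K r m H s0 e0 (4 * x - 1) (K.a i) * (e0 - s0))

/-! ### General lemmas -/

/-- Monotonicity of the global assumptions. -/
def StBigMono : Prop := ∀ (ι : Type) [Fintype ι] [DecidableEq ι] (K : KSys ι) (r m : ℕ)
  (H D : ℝ) (C C1 C2 : ℕ), Big K r m H D C → 1 ≤ C1 → C1 * C2 ≤ C → Big K r m H (D ^ C1) C2

/-- The structure `Flw` is inherited by dense subsets. -/
def StFlwSub : Prop := ∀ (ι : Type) [Fintype ι] [DecidableEq ι] (K : KSys ι) (r m : ℕ)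
  (H D D' s0 e0 : ℝ) (L : Lab) (κ : ℕ → ι → ℕ) (e kp l X2 X4 : ℕ) (S E E' : Finset ℕ),
  1 ≤ D → D ≤ D' → Flw K r m H D s0 e0 L κ e kp l X2 X4 S E → E' ⊆ E →
  (K.N : ℝ) ≤ D' * E'.card → Flw K r m H D' s0 e0 L κ e kp l X2 X4 S E'

/-- The mass radii are finite and positive. -/
def StPos5 : Prop := ∃ C : ℕ, ∀ (ι : Type) [Fintype ι] [DecidableEq ι] (K : KSys ι) (r m : ℕ)
  (H D s0 e0 : ℝ) (L : Lab) (κ : ℕ → ι → ℕ) (e kp l X2 X4 : ℕ) (S E : Finset ℕ),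
  Big K r m H D C → One K r m H D s0 e0 L κ e kp l X2 X4 S E → Pos5 K r m H s0 e0 E

/-- Many edges have many pairs (cell, line). -/
def StPairs : Prop := ∀ (ι : Type) [Fintype ι] [DecidableEq ι] (K : KSys ι) (r m : ℕ)
  (H D : ℝ), Big K r m H D 1 → ∀ (k x : ℕ), x ≤ m → ∀ F : Finset ℕ, (∀ i ∈ F, Hyg K r m H i) →
  (K.N : ℝ) ≤ D ^ k * F.card → Fintype.card ι * (r : ℝ) ^ x ≤
    D ^ (3 * k + 18) * ((F.image (fun i => (cell K r x i, K.a i))).card : ℝ)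

/-- Counting labels of level `x`. -/
def StLabCnt : Prop := ∀ (ι : Type) [Fintype ι] [DecidableEq ι] (K : KSys ι) (r m : ℕ)
  (H D s0 e0 : ℝ) (L : Lab) (E : Finset ℕ), 0 ≤ D → 0 ≤ H → 1 ≤ r →
  LabOK K r m D s0 e0 L E → (∀ i ∈ E, Hyg K r m H i) → ∀ x, 1 ≤ x → x ≤ m → ∀ F ⊆ E,
  ((F.image (fun i => (L.lab x i, K.a i))).card =
    (F.image (fun i => (cell K r x i, K.a i))).card) ∧
  (((F.image (fun i => (L.lab x i, K.a i))).card : ℝ) ≤ Fintype.card ι * (H * (r : ℝ) ^ x)) ∧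
  (∀ f : ι → ℕ, ((F.image (fun i => (L.lab x i, f (K.a i)))).card : ℝ) ≤
    D * ((F.image (fun i => (cell K r x i, f (K.a i)))).card : ℝ)) ∧
  (∀ z, z ≤ x → ∀ (p : ι) (c : ℕ),
    (((F.filter (fun i => K.a i = p ∧ cell K r z i = c)).image (L.lab x)).card : ℝ) ≤
      H * (r : ℝ) ^ (x - z))

/-! ### (HU) -/

/-- **TRI**: counting triples (label, line, line) in the same class: near and far pairs. -/
def StTri : Prop := ∀ (ι : Type) [DecidableEq ι] (PL : Finset (ℕ × ι)) (κ : ι → ℕ)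
  (cl : ι → ι → Prop) [∀ p q, Decidable (cl p q)] (A B M n : ℝ), 0 ≤ A → 0 ≤ B → 0 ≤ M →
  (∀ w ∈ PL, ((PL.filter (fun w' => w'.1 = w.1 ∧ κ w'.2 = κ w.2 ∧ cl w.2 w'.2)).card : ℝ) ≤ A) →
  (∀ p q, ¬ cl p q → (((PL.filter (fun w => w.2 = p)).image Prod.fst ∩
    (PL.filter (fun w => w.2 = q)).image Prod.fst).card : ℝ) ≤ B) →
  (∀ p ∈ PL.image Prod.snd, (((PL.image Prod.snd).filter (fun q => κ q = κ p)).card : ℝ) ≤ M) →
  ((PL.image Prod.snd).card : ℝ) ≤ n →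
  (PL.card : ℝ) ^ 2 ≤ ((PL.image (fun w => (w.1, κ w.2))).card : ℝ) * (PL.card * A + n * (M * B))

/-- **COMMON**: two far lines have few common labels of violating edges. -/
def StCommon : Prop := ∀ (ι : Type) [Fintype ι] [DecidableEq ι] (K : KSys ι) (r m : ℕ)
  (H D s0 e0 : ℝ) (L : Lab) (κ : ℕ → ι → ℕ) (e kp l X2 X4 : ℕ) (S E : Finset ℕ),
  30 * D ≤ r → 1 ≤ D → 0 ≤ H → One K r m H D s0 e0 L κ e kp l X2 X4 S E →
  ∀ z x, 1 ≤ z → z ≤ x → X2 ≤ x → x ≤ X4 → ∀ (j : ℕ), ∀ E1 ⊆ E,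
  (∀ i ∈ E1, r * rd K r m H s0 e0 (4 * x - 1) (K.a i) * (e0 - s0) <
    (L.h1 z i - L.h0 z i) * rd K r m H s0 e0 j (K.a i)) →
  ∀ p q, rd K r m H s0 e0 j p ≤ 10 * dist0 K s0 e0 q p →
  (((E1.filter (fun i => K.a i = p)).image (L.lab x) ∩
    (E1.filter (fun i => K.a i = q)).image (L.lab x)).card : ℝ) ≤ 2 * (H * (r : ℝ) ^ (x - z))

/-- **CLS**: few lines in a class (from the diameter and the growth of the radii). -/
def StCls : Prop := ∀ (ι : Type) [Fintype ι] [DecidableEq ι] (K : KSys ι) (r m : ℕ)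
  (H D s0 e0 : ℝ) (L : Lab) (κ : ℕ → ι → ℕ) (e kp l X2 X4 : ℕ) (S E : Finset ℕ),
  2 ≤ r → Flw K r m H D s0 e0 L κ e kp l X2 X4 S E → Pos5 K r m H s0 e0 E →
  ∀ y, X2 + k6 kp l + 1 ≤ y → y ≤ X4 → ∀ i ∈ E,
  (((E.image K.a).filter (fun q => κ y q = κ y (K.a i))).card : ℝ) *
    (r : ℝ) ^ (4 * y - 1 - k6 kp l) ≤ Fintype.card ι

/-- **(HU)**. -/
def StHU : Prop := ∀ (m e kp l k : ℕ), ∃ C : ℕ, ∀ (ι : Type) [Fintype ι]
  [DecidableEq ι] (K : KSys ι) (r : ℕ) (H D s0 e0 : ℝ) (L : Lab) (κ : ℕ → ι → ℕ) (X2 X4 : ℕ)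
  (S E : Finset ℕ), Big K r m H D C → Flw K r m H D s0 e0 L κ e kp l X2 X4 S E →
  Pos5 K r m H s0 e0 E →
  ∀ x ∈ S, ∀ y, X2 + k6 kp l + 1 ≤ y → y < x → x ≤ 2 * y → x + kt e kp l ≤ X4 →
  2 * (x - y) + kz e kp l ≤ x → D ^ k * ((huV K r m H s0 e0 L e kp l E x y).card : ℝ) ≤ K.N

/-! ### Thick edges -/

/-- **THICK**. -/
def StThick : Prop := ∀ (m e kp l k : ℕ), ∃ C : ℕ, ∀ (ι : Type) [Fintype ι]
  [DecidableEq ι] (K : KSys ι) (r : ℕ) (H D s0 e0 : ℝ) (L : Lab) (κ : ℕ → ι → ℕ) (X2 X4 : ℕ)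
  (S E : Finset ℕ), Big K r m H D C → Flw K r m H D s0 e0 L κ e kp l X2 X4 S E →
  ∀ x ∈ S, ∀ y, X2 + k6 kp l + 1 ≤ y → y < x → x ≤ 2 * y → x + kt e kp l ≤ X4 →
  D ^ k * ((thin K r L κ e kp l E x y).card : ℝ) ≤ K.N

/-! ### (HL) -/

/-- **PRA**: few edges in light pairs (line, cell of level `z`). -/
def StPruneA : Prop := ∀ (ι : Type) [Fintype ι] [DecidableEq ι] (K : KSys ι) (r m : ℕ)
  (H D : ℝ), Big K r m H D 1 → ∀ (k z : ℕ), z ≤ m → ∀ F : Finset ℕ, (∀ i ∈ F, Hyg K r m H i) →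
  D ^ k * ((F.filter (fun i => D ^ (k + 1) * (Fintype.card ι * (r : ℝ) ^ z) *
    ((F.filter (fun j => K.a j = K.a i ∧ cell K r z j = cell K r z i)).card : ℝ) < K.N)).card : ℝ)
    ≤ K.N

/-- **PRB**: few edges in the units (class of level `x`, cell of level `z`) with too many cells
of level `x`. -/
def StPruneB : Prop := ∀ (ι : Type) [Fintype ι] [DecidableEq ι] (K : KSys ι) (r m : ℕ)
  (H D : ℝ), Big K r m H D 1 → ∀ (k z x : ℕ), z ≤ x → x ≤ m → ∀ (E F : Finset ℕ) (f : ι → ℕ),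
  (∀ i ∈ E, Hyg K r m H i) → F ⊆ E → HashOK K r D (PS K r m H) x f E →
  D ^ k * ((F.filter (fun i => D ^ (3 * k + 19) * (r : ℝ) ^ (x - z) <
    (((F.filter (fun j => f (K.a j) = f (K.a i) ∧ cell K r z j = cell K r z i)).image
      (cell K r x)).card : ℝ))).card : ℝ) ≤ K.N

/-- **RB**: the lines of `unl` are close on the hull of level `z` of a violating edge. -/
def StRB : Prop := ∀ (ι : Type) [Fintype ι] [DecidableEq ι] (K : KSys ι) (r m : ℕ)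
  (H D s0 e0 : ℝ) (L : Lab) (κ : ℕ → ι → ℕ) (e kp l X2 X4 : ℕ) (S E : Finset ℕ),
  2 ≤ D → 1 ≤ r → One K r m H D s0 e0 L κ e kp l X2 X4 S E →
  ∀ x y z, X2 ≤ x → x ≤ X4 → X2 ≤ y → y ≤ X4 → 1 ≤ z → z ≤ x → ∀ i ∈ E,
  r * (L.h1 z i - L.h0 z i) * rd K r m H s0 e0 (4 * y - 1) (K.a i) ≤
    rd K r m H s0 e0 (4 * x - 1) (K.a i) * (e0 - s0) →
  ∀ s ∈ unl K L κ E x y i, s ∈ PSr K r m H z (cell K r z i) ∧
    |K.ht s (L.h0 z i) - K.ht (K.a i) (L.h0 z i)| ≤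
      2 * D * rd K r m H s0 e0 (4 * x - 1) (K.a i) ∧
    |K.ht s (L.h1 z i) - K.ht (K.a i) (L.h1 z i)| ≤
      2 * D * rd K r m H s0 e0 (4 * x - 1) (K.a i)

/-- **RBV**: the lines which are close on the hull of level `z` are visited in the cell of level
`x'`. -/
def StRBvis : Prop := ∀ (ι : Type) [Fintype ι] [DecidableEq ι] (K : KSys ι) (r m : ℕ)
  (H D s0 e0 : ℝ) (L : Lab) (κ : ℕ → ι → ℕ) (e kp l X2 X4 : ℕ) (S E : Finset ℕ),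
  2 ≤ D → 2 * D < r → Flw K r m H D s0 e0 L κ e kp l X2 X4 S E → Pos5 K r m H s0 e0 E →
  ∀ x z, x ≤ X4 → ∀ x' ∈ S, 4 * x' + (kp + k6 kp l) ≤ 4 * x - 1 → 1 ≤ z → z ≤ x' →
  ∀ i ∈ E, ∀ s : ι,
    |K.ht s (L.h0 z i) - K.ht (K.a i) (L.h0 z i)| ≤
      2 * D * rd K r m H s0 e0 (4 * x - 1) (K.a i) →
    |K.ht s (L.h1 z i) - K.ht (K.a i) (L.h1 z i)| ≤
      2 * D * rd K r m H s0 e0 (4 * x - 1) (K.a i) →
    s ∈ vis K r x' (cell K r x' i)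

/-- **CORE**: choice of a line in every unit and the crossing lemma (P2). -/
def StCore : Prop := ∀ (m k : ℕ), ∃ C : ℕ, ∀ (ι : Type) [Fintype ι] [DecidableEq ι]
  (K : KSys ι) (r : ℕ) (H D : ℝ), Big K r m H D C → ∀ (z x : ℕ), z ≤ x → x ≤ m →
  ∀ (f : ι → ℕ) (F : Finset ℕ), (∀ i ∈ F, Hyg K r m H i) → (∀ i ∈ F, f (K.a i) = f (K.b i)) →
  (K.N : ℝ) ≤ D ^ k * F.card →
  (∀ i ∈ F, (K.N : ℝ) ≤ D ^ k * (Fintype.card ι * (r : ℝ) ^ z) *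
    ((F.filter (fun j => K.a j = K.a i ∧ cell K r z j = cell K r z i)).card : ℝ)) →
  (∀ i ∈ F, (((F.filter (fun j => f (K.a j) = f (K.a i) ∧ cell K r z j = cell K r z i)).image
    (cell K r x)).card : ℝ) ≤ D ^ k * (r : ℝ) ^ (x - z)) →
  ∀ (R : ι → ℕ → Finset ι) (M : ℝ), (∀ i ∈ F,
    R (K.a i) (cell K r z i) ⊆ PSr K r m H z (cell K r z i) ∧
    R (K.a i) (cell K r z i) ⊆ vis K r x (cell K r x i) ∧
    M ≤ ((R (K.a i) (cell K r z i)).card : ℝ)) →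
  M * (r : ℝ) ^ (4 * x) ≤ D ^ C * (Fintype.card ι * (r : ℝ) ^ z)

/-- **(HL)**: few thick edges violate (HL). -/
def StHL : Prop := ∀ (m e kp l k : ℕ), ∃ C : ℕ, ∀ (ι : Type) [Fintype ι]
  [DecidableEq ι] (K : KSys ι) (r : ℕ) (H D s0 e0 : ℝ) (L : Lab) (κ : ℕ → ι → ℕ) (X2 X4 : ℕ)
  (S E : Finset ℕ), Big K r m H D C → Flw K r m H D s0 e0 L κ e kp l X2 X4 S E →
  Pos5 K r m H s0 e0 E →
  ∀ x ∈ S, ∀ x' ∈ S, ∀ y, X2 + k6 kp l + 1 ≤ y → y < x → x ≤ 2 * y → x + kt e kp l ≤ X4 →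
  4 * x' + (kp + k6 kp l) ≤ 4 * x - 1 → 4 * (x - x') + (k8 e kp l + 5) < 2 * (x - y) →
  zl e kp l x x' y ≤ x' →
  D ^ k * ((hlV K r m H s0 e0 L e kp l E x x' y \ thin K r L κ e kp l E x y).card : ℝ) ≤ K.N

/-! ### The profile -/

/-- **PRF**: the profile at an edge which satisfies (HU) and (HL). -/
def StPrf : Prop := ∀ (ι : Type) [Fintype ι] [DecidableEq ι] (K : KSys ι) (r m : ℕ)
  (H D s0 e0 : ℝ) (L : Lab) (κ : ℕ → ι → ℕ) (e kp l X2 X4 : ℕ) (S E : Finset ℕ),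
  2 ≤ r → Flw K r m H D s0 e0 L κ e kp l X2 X4 S E → Pos5 K r m H s0 e0 E → ∀ i ∈ E,
  (∀ x ∈ S, ∀ y, X2 + k6 kp l + 1 ≤ y → y < x → x ≤ 2 * y → x + kt e kp l ≤ X4 →
    2 * (x - y) + kz e kp l ≤ x → i ∉ huV K r m H s0 e0 L e kp l E x y) →
  (∀ x ∈ S, ∀ x' ∈ S, ∀ y, X2 + k6 kp l + 1 ≤ y → y < x → x ≤ 2 * y → x + kt e kp l ≤ X4 →
    4 * x' + (kp + k6 kp l) ≤ 4 * x - 1 → 4 * (x - x') + (k8 e kp l + 5) < 2 * (x - y) →
    zl e kp l x x' y ≤ x' → i ∉ hlV K r m H s0 e0 L e kp l E x x' y) →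
  Prof (Real.log r) (S : Set ℕ) X2 X4 m l (kp + k6 kp l) (k6 kp l + 1)
    (k8 e kp l + 5) (kb e kp l) (kt e kp l) (kz e kp l)
    (pf K r m H s0 e0 (K.a i)) (pg s0 e0 L i)

end Pool.Agent.Work.MP_e17eac_co.B5
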